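import Pool.Agent.R860.SL.Rad

/-! B-convexity gives decay of the Rademacher averages. -/

open Finset
open scoped BigOperators

namespace R860.SL

variable {X : Type*} [NormedAddCommGroup X] [NormedSpace ℝ X]

/-- the raw B-convexity condition -/
def BCond (X : Type*) [NormedAddCommGroup X] [NormedSpace ℝ X] (k : ℕ) (ε : ℝ) : Prop :=
  ∀ x : Fin k → X, (∀ i, ‖x i‖ ≤ 1) →
    ∃ s : Fin k → ℝ, (∀ i, s i = 1 ∨ s i = -1) ∧ ‖∑ i, s i • x i‖ ≤ k * (1 - ε)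

lemma exists_units {k : ℕ} (s : Fin k → ℝ) (hs : ∀ i, s i = 1 ∨ s i = -1) :
    ∃ r : Fin k → ℤˣ, ∀ i, sg (r i) = s i := by
  have : ∀ i, ∃ u : ℤˣ, sg u = s i := by
    intro i
    rcases hs i with h | h
    · exact ⟨1, by rw [sg_one, h]⟩
    · exact ⟨-1, by rw [sg_neg, sg_one, h]⟩
  choose r hr using this
  exact ⟨r, hr⟩

/-- scaled form -/
lemma BCond.scaled {k : ℕ} {ε : ℝ} (h : BCond X k ε) (x : Fin k → X) {m : ℝ} (hm : 0 < m)
    (hx : ∀ i, ‖x i‖ ≤ m) : ∃ r : Fin k → ℤˣ, ‖∑ i, sg (r i) • x i‖ ≤ m * (k * (1 - ε)) := by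
  obtain ⟨s, hs, hb⟩ := h (fun i => m⁻¹ • x i) (by
    intro i
    rw [norm_smul, norm_inv, Real.norm_of_nonneg hm.le]
    rw [inv_mul_le_iff₀ hm, mul_one]
    exact hx i)
  obtain ⟨r, hr⟩ := exists_units s hs
  refine ⟨r, ?_⟩
  have h1 : ∑ i, sg (r i) • x i = m • ∑ i, s i • (m⁻¹ • x i) := by
    rw [Finset.smul_sum]
    apply Finset.sum_congr rfl
    intro i _
    rw [hr, smul_smul, smul_smul]
    congr 1
    field_simp
  rw [h1, norm_smul, Real.norm_of_nonneg hm.le]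
  exact mul_le_mul_of_nonneg_left hb hm.le

lemma norm_rad_le {ι : Type*} [Fintype ι] (x : ι → X) (r : ι → ℤˣ) :
    ‖∑ i, sg (r i) • x i‖ ≤ ∑ i, ‖x i‖ := by
  refine (norm_sum_le _ _).trans ?_
  apply Finset.sum_le_sum
  intro i _
  rw [norm_smul, Real.norm_eq_abs, abs_sg, one_mul]

/-- if one of the values is small then the average is smaller -/
lemma ex_le_of_one {G : Type*} [Fintype G] [Nonempty G] (F : G → ℝ) (A B θ : ℝ)
    (hA : ∀ g, F g ≤ A) (g0 : G) (hB : F g0 ≤ B) (hBA : B ≤ A)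
    (hθ : θ ≤ 1 / Fintype.card G) :
    𝔼 g, F g ≤ (1 - θ) * A + θ * B := by
  classical
  have hN : (0 : ℝ) < Fintype.card G := by
    exact_mod_cast Fintype.card_pos
  have h1 : ∑ g, F g ≤ (Fintype.card G - 1) * A + B := by
    rw [← Finset.add_sum_erase _ _ (Finset.mem_univ g0)]
    have h2 : ∑ g ∈ Finset.univ.erase g0, F g ≤ ∑ g ∈ Finset.univ.erase g0, A :=
      Finset.sum_le_sum (fun g _ => hA g)
    rw [Finset.sum_const, Finset.card_erase_of_mem (Finset.mem_univ _), Finset.card_univ,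
      nsmul_eq_mul, Nat.cast_sub (Fintype.card_pos), Nat.cast_one] at h2
    linarith
  rw [Fintype.expect_eq_sum_div_card, div_le_iff₀ hN]
  have h3 : θ * Fintype.card G ≤ 1 := by
    rw [le_div_iff₀ hN] at hθ
    exact hθ
  nlinarith

lemma BCond.QB {k : ℕ} (hk : 2 ≤ k) {ε : ℝ} (hε : 0 < ε) (h : BCond X k ε) :
    ∃ c : ℝ, 0 ≤ c ∧ c < 1 ∧ R860.SL.QB X c (Fin k) := by
  have hk0 : (0 : ℝ) < k := by
    have : 0 < k := by omega
    exact_mod_cast this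
  have hε1 : ε ≤ 1 := by
    obtain ⟨s, hs, hb⟩ := h (fun _ => 0) (by simp)
    simp only [smul_zero, Finset.sum_const_zero, norm_zero] at hb
    by_contra hcon
    push Not at hcon
    nlinarith
  set N : ℝ := ((Fintype.card (Fin k → ℤˣ) : ℕ) : ℝ) with hN
  have hN0 : 0 < N := by
    rw [hN]
    exact_mod_cast Fintype.card_pos
  set D : ℝ := ε + k * (1 + 1 / ε) with hD
  have hD0 : 0 < D := by positivity
  set θ : ℝ := min (1 / N) (1 / D) with hθ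
  have hθ0 : 0 < θ := by
    rw [hθ]
    exact lt_min (by positivity) (by positivity)
  have hθN : θ ≤ 1 / N := min_le_left _ _
  have hθD : θ * D ≤ 1 := by
    have : θ ≤ 1 / D := min_le_right _ _
    rwa [le_div_iff₀ hD0] at this
  have hθ1 : θ ≤ 1 := by
    refine hθN.trans ?_
    rw [div_le_one hN0, hN]
    exact_mod_cast Fintype.card_pos
  refine ⟨1 - θ * ε, ?_, ?_, ?_⟩
  · nlinarith
  · nlinarith [mul_pos hθ0 hε]
  intro x
  -- maximum of the norms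
  haveI : Nonempty (Fin k) := ⟨⟨0, by omega⟩⟩
  obtain ⟨i0, -, hi0⟩ := Finset.exists_max_image Finset.univ (fun i => ‖x i‖) Finset.univ_nonempty
  set m : ℝ := ‖x i0‖ with hm
  set T : ℝ := ∑ i, ‖x i‖ with hT
  set Q : ℝ := ∑ i, ‖x i‖ ^ 2 with hQ
  have hm' : ∀ i, ‖x i‖ ≤ m := fun i => hi0 i (Finset.mem_univ i)
  rw [Fintype.card_fin]
  by_cases hm0 : m = 0
  · have hx0 : ∀ i, x i = 0 := by
      intro i
      have := hm' i
      rw [hm0] at this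
      exact norm_le_zero_iff.mp this
    have : ∀ r : Fin k → ℤˣ, ‖∑ i, sg (r i) • x i‖ ^ 2 = 0 := by
      intro r
      simp [hx0]
    simp only [this]
    rw [Finset.expect_const Finset.univ_nonempty]
    simp [hQ, hx0]
  have hmpos : 0 < m := lt_of_le_of_ne (norm_nonneg _) (Ne.symm hm0)
  obtain ⟨r0, hr0⟩ := h.scaled x hmpos hm'
  have hTm : m ≤ T := by
    rw [hm, hT]
    exact Finset.single_le_sum (f := fun i => ‖x i‖) (fun i _ => norm_nonneg _) (Finset.mem_univ i0)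
  have hT0 : 0 ≤ T := hmpos.le.trans hTm
  -- variance identity
  have hV : (m - T / k) ^ 2 ≤ Q - T ^ 2 / k := by
    have h1 : ∑ i, (‖x i‖ - T / k) ^ 2 = Q - T ^ 2 / k := by
      have : ∀ i, (‖x i‖ - T / k) ^ 2 = ‖x i‖ ^ 2 - 2 * (T / k) * ‖x i‖ + (T / k) ^ 2 := by
        intro i; ring
      simp only [this]
      rw [Finset.sum_add_distrib, Finset.sum_sub_distrib, ← Finset.mul_sum, Finset.sum_const,
        Finset.card_univ, Fintype.card_fin, nsmul_eq_mul, ← hT, ← hQ]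
      field_simp
      ring
    rw [← h1, hm]
    exact Finset.single_le_sum (f := fun i => (‖x i‖ - T / k) ^ 2) (fun i _ => sq_nonneg _)
      (Finset.mem_univ i0)
  set V : ℝ := Q - T ^ 2 / k with hVdef
  have hV0 : 0 ≤ V := (sq_nonneg _).trans hV
  have hTQ : T ^ 2 = k * Q - k * V := by
    rw [hVdef]
    field_simp
    ring
  -- main estimate
  set B : ℝ := min (T ^ 2) ((m * (k * (1 - ε))) ^ 2) with hB
  have hE : 𝔼 r : Fin k → ℤˣ, ‖∑ i, sg (r i) • x i‖ ^ 2 ≤ (1 - θ) * T ^ 2 + θ * B := by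
    apply ex_le_of_one (fun r : Fin k → ℤˣ => ‖∑ i, sg (r i) • x i‖ ^ 2) (T ^ 2) B θ _ r0
    · apply le_min
      · exact pow_le_pow_left₀ (norm_nonneg _) (norm_rad_le x r0) 2
      · exact pow_le_pow_left₀ (norm_nonneg _) hr0 2
    · exact min_le_left _ _
    · exact hθN
    · intro r
      exact pow_le_pow_left₀ (norm_nonneg _) (norm_rad_le x r) 2
  have hB' : B ≤ (m * (k * (1 - ε))) ^ 2 := min_le_right _ _
  -- m^2 bound
  have hm2 : m ^ 2 ≤ (1 + ε) * (T / k) ^ 2 + (1 + 1 / ε) * V := by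
    have h1 : m ^ 2 ≤ (1 + ε) * (T / k) ^ 2 + (1 + 1 / ε) * (m - T / k) ^ 2 := by
      set a := T / k
      have h2 : 0 ≤ (ε * a - (m - a)) ^ 2 / ε := by positivity
      have h3 : (ε * a - (m - a)) ^ 2 / ε = ε * a ^ 2 - 2 * a * (m - a) + (1 / ε) * (m - a) ^ 2 := by
        field_simp
        ring
      rw [h3] at h2
      nlinarith
    have h4 : (1 + 1 / ε) * (m - T / k) ^ 2 ≤ (1 + 1 / ε) * V :=
      mul_le_mul_of_nonneg_left hV (by positivity)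
    linarith
  have hkey : (m * (k * (1 - ε))) ^ 2 ≤ (1 - ε) * T ^ 2 + k ^ 2 * (1 + 1 / ε) * V := by
    have h1 : (m * (k * (1 - ε))) ^ 2 = m ^ 2 * (k ^ 2 * (1 - ε) ^ 2) := by ring
    rw [h1]
    have h2 : m ^ 2 * (k ^ 2 * (1 - ε) ^ 2)
        ≤ ((1 + ε) * (T / k) ^ 2 + (1 + 1 / ε) * V) * (k ^ 2 * (1 - ε) ^ 2) :=
      mul_le_mul_of_nonneg_right hm2 (by positivity)
    refine h2.trans ?_
    have h3 : ((1 + ε) * (T / k) ^ 2 + (1 + 1 / ε) * V) * (k ^ 2 * (1 - ε) ^ 2)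
        = (1 + ε) * (1 - ε) ^ 2 * T ^ 2 + (1 - ε) ^ 2 * (k ^ 2 * (1 + 1 / ε) * V) := by
      field_simp
    rw [h3]
    have h4 : (1 + ε) * (1 - ε) ^ 2 ≤ 1 - ε := by nlinarith [mul_nonneg (sub_nonneg.mpr hε1) (sq_nonneg ε)]
    have h5 : (1 - ε) ^ 2 ≤ 1 := by nlinarith
    have h6 : 0 ≤ k ^ 2 * (1 + 1 / ε) * V := by positivity
    nlinarith [sq_nonneg T]
  have hfin : (1 - θ) * T ^ 2 + θ * ((1 - ε) * T ^ 2 + k ^ 2 * (1 + 1 / ε) * V)
      ≤ (1 - θ * ε) * k * Q := by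
    have e1 : (1 - θ) * T ^ 2 + θ * ((1 - ε) * T ^ 2 + k ^ 2 * (1 + 1 / ε) * V)
        = (1 - θ * ε) * k * Q - k * V * (1 - θ * D) := by
      have : (1 - θ) * T ^ 2 + θ * ((1 - ε) * T ^ 2 + k ^ 2 * (1 + 1 / ε) * V)
        = (1 - θ * ε) * T ^ 2 + θ * (k ^ 2 * (1 + 1 / ε) * V) := by ring
      rw [this, hTQ, hD]
      ring
    rw [e1]
    have : 0 ≤ k * V * (1 - θ * D) := by
      apply mul_nonneg (by positivity)
      linarith
    linarith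
  calc 𝔼 r : Fin k → ℤˣ, ‖∑ i, sg (r i) • x i‖ ^ 2
      ≤ (1 - θ) * T ^ 2 + θ * B := hE
    _ ≤ (1 - θ) * T ^ 2 + θ * ((1 - ε) * T ^ 2 + k ^ 2 * (1 + 1 / ε) * V) := by
        have := mul_le_mul_of_nonneg_left (hB'.trans hkey) hθ0.le
        linarith
    _ ≤ (1 - θ * ε) * k * Q := hfin

/-- the first moment decay -/
lemma BCond.decay {k : ℕ} (hk : 2 ≤ k) {ε : ℝ} (hε : 0 < ε) (h : BCond X k ε) {δ : ℝ}
    (hδ : 0 < δ) : ∃ L : ℕ, 0 < L ∧ ∀ C : ℝ, 0 ≤ C → ∀ x : Fin L → X, (∀ i, ‖x i‖ ≤ C) →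
      𝔼 r : Fin L → ℤˣ, ‖∑ i, sg (r i) • x i‖ ≤ δ * C * L := by
  obtain ⟨c, hc0, hc1, hQ⟩ := h.QB hk hε
  obtain ⟨j, hj⟩ := exists_pow_lt_of_lt_one (show (0 : ℝ) < δ ^ 2 by positivity) hc1
  refine ⟨k ^ j, by positivity, ?_⟩
  intro C hC x hx
  have h1 := hQ.pow hc0 j x
  have h2 : ∑ i, ‖x i‖ ^ 2 ≤ (k ^ j : ℕ) * C ^ 2 := by
    calc ∑ i, ‖x i‖ ^ 2 ≤ ∑ _i : Fin (k ^ j), C ^ 2 :=
          Finset.sum_le_sum (fun i _ => pow_le_pow_left₀ (norm_nonneg _) (hx i) 2)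
      _ = (k ^ j : ℕ) * C ^ 2 := by
          rw [Finset.sum_const, Finset.card_univ, Fintype.card_fin, nsmul_eq_mul]
  have h3 : (𝔼 r : Fin (k ^ j) → ℤˣ, ‖∑ i, sg (r i) • x i‖) ^ 2
      ≤ 𝔼 r : Fin (k ^ j) → ℤˣ, ‖∑ i, sg (r i) • x i‖ ^ 2 := by
    have := Finset.expect_mul_sq_le_sq_mul_sq Finset.univ
      (fun r : Fin (k ^ j) → ℤˣ => ‖∑ i, sg (r i) • x i‖) (fun _ => (1 : ℝ))
    simp only [mul_one, one_pow] at this
    rw [Finset.expect_const Finset.univ_nonempty, mul_one] at this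
    exact this
  apply abs_le_of_sq_le_sq' _ (by positivity) |>.2
  calc (𝔼 r : Fin (k ^ j) → ℤˣ, ‖∑ i, sg (r i) • x i‖) ^ 2
      ≤ c ^ j * Fintype.card (Fin (k ^ j)) * ∑ i, ‖x i‖ ^ 2 := h3.trans h1
    _ ≤ δ ^ 2 * (k ^ j : ℕ) * ((k ^ j : ℕ) * C ^ 2) := by
        rw [Fintype.card_fin]
        apply mul_le_mul _ h2 (by positivity) (by positivity)
        exact mul_le_mul_of_nonneg_right hj.le (by positivity)
    _ = (δ * C * (k ^ j : ℕ)) ^ 2 := by ring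

end R860.SL
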