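import Pool.Agent.R860.SL.Rad

/-! The one-sided Rademacher bound, contraction by `|·|`, maxima. -/

open Finset
open scoped BigOperators

set_option linter.unusedSectionVars false

namespace R860.SL

variable {T : Type*} {ι : Type*} [Fintype ι] [DecidableEq ι]

/-- `E sup_t ∑ r_n f_n(t) ≤ C`, expressed with selections `τ` -/
def RB (f : ι → T → ℝ) (C : ℝ) : Prop :=
  ∀ τ : (ι → ℤˣ) → T, 𝔼 r : ι → ℤˣ, ∑ n, sg (r n) * f n (τ r) ≤ C

lemma RB.mono {f : ι → T → ℝ} {C D : ℝ} (h : RB f C) (hCD : C ≤ D) : RB f D :=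
  fun τ => (h τ).trans hCD

lemma RB.add {f g : ι → T → ℝ} {C D : ℝ} (hf : RB f C) (hg : RB g D) :
    RB (fun n t => f n t + g n t) (C + D) := by
  intro τ
  have : ∀ r : ι → ℤˣ, ∑ n, sg (r n) * (f n (τ r) + g n (τ r))
      = ∑ n, sg (r n) * f n (τ r) + ∑ n, sg (r n) * g n (τ r) := by
    intro r
    rw [← Finset.sum_add_distrib]
    apply Finset.sum_congr rfl
    intro n _
    ring
  simp only [this]
  rw [Finset.expect_add_distrib]
  exact add_le_add (hf τ) (hg τ)

lemma RB.smul {f : ι → T → ℝ} {C a : ℝ} (ha : 0 ≤ a) (hf : RB f C) :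
    RB (fun n t => a * f n t) (a * C) := by
  intro τ
  have : ∀ r : ι → ℤˣ, ∑ n, sg (r n) * (a * f n (τ r)) = a * ∑ n, sg (r n) * f n (τ r) := by
    intro r
    rw [Finset.mul_sum]
    apply Finset.sum_congr rfl
    intro n _
    ring
  simp only [this]
  rw [← Finset.mul_expect]
  exact mul_le_mul_of_nonneg_left (hf τ) ha

lemma RB.neg {f : ι → T → ℝ} {C : ℝ} (hf : RB f C) : RB (fun n t => - f n t) C := by
  intro τ
  have h := hf (fun r => τ (fun n => - r n))
  have e : 𝔼 r : ι → ℤˣ, ∑ n, sg (r n) * (- f n (τ r))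
      = 𝔼 r : ι → ℤˣ, ∑ n, sg (r n) * f n (τ (fun n => - r n)) := by
    refine Finset.expect_equiv (Equiv.mulLeft (fun _ => (-1 : ℤˣ))) (by simp) ?_
    intro r _
    apply Finset.sum_congr rfl
    intro n _
    simp [sg_neg]
  rw [e]
  exact h

/-- the sign flip at coordinate `m` -/
def flp (m : ι) (r : ι → ℤˣ) : ι → ℤˣ := Function.update r m (- r m)

lemma flp_same (m : ι) (r : ι → ℤˣ) : flp m r m = - r m := by simp [flp]
lemma flp_ne {m n : ι} (h : n ≠ m) (r : ι → ℤˣ) : flp m r n = r n := by simp [flp, h]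
lemma flp_flp (m : ι) (r : ι → ℤˣ) : flp m (flp m r) = r := by
  funext n
  by_cases h : n = m
  · subst h; simp [flp]
  · simp [flp, h]

lemma ex_flp (m : ι) (F : (ι → ℤˣ) → ℝ) : 𝔼 r, F (flp m r) = 𝔼 r, F r :=
  Finset.expect_equiv ⟨flp m, flp m, flp_flp m, flp_flp m⟩ (by simp) (by simp)

/-- comparing averages through the pairs `r, flp m r` -/
lemma ex_le_of_pair (m : ι) (F G : (ι → ℤˣ) → ℝ)
    (h : ∀ r, F r + F (flp m r) ≤ G r + G (flp m r)) : 𝔼 r, F r ≤ 𝔼 r, G r := by
  have h1 : 𝔼 r, (F r + F (flp m r)) ≤ 𝔼 r, (G r + G (flp m r)) :=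
    Finset.expect_le_expect (fun r _ => h r)
  rw [Finset.expect_add_distrib, Finset.expect_add_distrib, ex_flp, ex_flp] at h1
  linarith

/-- replacing one coordinate function by its absolute value -/
lemma RB.abs_one {f : ι → T → ℝ} {C : ℝ} (hf : RB f C) (m : ι) :
    RB (Function.update f m (fun t => |f m t|)) C := by
  classical
  intro τ
  set σ : (ι → ℤˣ) → T := fun r =>
    if 0 ≤ sg (r m) * (f m (τ r) - f m (τ (flp m r))) then τ r else τ (flp m r) with hσ
  refine le_trans ?_ (hf σ)
  apply ex_le_of_pair m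
  intro r
  set A : (ι → ℤˣ) → T → ℝ := fun r t => ∑ n ∈ Finset.univ.erase m, sg (r n) * f n t with hA
  have hA' : ∀ t, A (flp m r) t = A r t := by
    intro t
    apply Finset.sum_congr rfl
    intro n hn
    rw [flp_ne (Finset.ne_of_mem_erase hn)]
  have e1 : ∀ (r : ι → ℤˣ) t, ∑ n, sg (r n) * Function.update f m (fun t => |f m t|) n t
      = A r t + sg (r m) * |f m t| := by
    intro r t
    rw [← Finset.add_sum_erase _ _ (Finset.mem_univ m), Function.update_self, add_comm]
    congr 1
    apply Finset.sum_congr rfl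
    intro n hn
    rw [Function.update_of_ne (Finset.ne_of_mem_erase hn)]
  have e2 : ∀ (r : ι → ℤˣ) t, ∑ n, sg (r n) * f n t = A r t + sg (r m) * f m t := by
    intro r t
    rw [← Finset.add_sum_erase _ _ (Finset.mem_univ m), add_comm]
  rw [e1, e1, e2, e2, hA', hA', flp_same, sg_neg]
  have hab : ∀ a b : ℝ, |a| - |b| ≤ |a - b| := fun a b => abs_sub_abs_le_abs_sub a b
  by_cases hc : 0 ≤ sg (r m) * (f m (τ r) - f m (τ (flp m r)))
  · have s1 : σ r = τ r := by
      simp only [hσ]
      rw [if_pos hc]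
    have s2 : σ (flp m r) = τ (flp m r) := by
      simp only [hσ, flp_flp, flp_same, sg_neg]
      rw [if_pos]
      linarith
    rw [s1, s2]
    rcases sg_cases (r m) with h | h
    · rw [h] at hc ⊢
      have h1 := hab (f m (τ r)) (f m (τ (flp m r)))
      have h2 : |f m (τ r) - f m (τ (flp m r))| = f m (τ r) - f m (τ (flp m r)) :=
        abs_of_nonneg (by linarith)
      linarith
    · rw [h] at hc ⊢
      have h1 := hab (f m (τ (flp m r))) (f m (τ r))
      have h2 : |f m (τ (flp m r)) - f m (τ r)| = f m (τ (flp m r)) - f m (τ r) :=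
        abs_of_nonneg (by linarith)
      linarith
  · have s1 : σ r = τ (flp m r) := by
      simp only [hσ]
      rw [if_neg hc]
    have s2 : σ (flp m r) = τ r := by
      simp only [hσ, flp_flp, flp_same, sg_neg]
      rw [if_neg]
      intro h
      apply hc
      linarith
    rw [s1, s2]
    push Not at hc
    rcases sg_cases (r m) with h | h
    · rw [h] at hc ⊢
      have h1 := hab (f m (τ r)) (f m (τ (flp m r)))
      have h2 : |f m (τ r) - f m (τ (flp m r))| = -(f m (τ r) - f m (τ (flp m r))) :=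
        abs_of_nonpos (by linarith)
      linarith
    · rw [h] at hc ⊢
      have h1 := hab (f m (τ (flp m r))) (f m (τ r))
      have h2 : |f m (τ (flp m r)) - f m (τ r)| = -(f m (τ (flp m r)) - f m (τ r)) :=
        abs_of_nonpos (by linarith)
      linarith

lemma RB.abs {f : ι → T → ℝ} {C : ℝ} (hf : RB f C) : RB (fun n t => |f n t|) C := by
  classical
  have key : ∀ s : Finset ι, RB (fun n t => if n ∈ s then |f n t| else f n t) C := by
    intro s
    induction s using Finset.induction_on with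
    | empty => simpa using hf
    | insert m s hm ih =>
      have h1 := ih.abs_one m
      have e : (fun n t => if n ∈ insert m s then |f n t| else f n t)
          = Function.update (fun n t => if n ∈ s then |f n t| else f n t) m
            (fun t => |if m ∈ s then |f m t| else f m t|) := by
        funext n t
        by_cases h : n = m
        · subst h
          simp [hm]
        · rw [Function.update_of_ne h]
          simp [h]
      rw [e]
      exact h1
  simpa using key Finset.univ

lemma RB.maxx {f g : ι → T → ℝ} {C D : ℝ} (hf : RB f C) (hg : RB g D) :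
    RB (fun n t => max (f n t) (g n t)) (C + D) := by
  have h1 := ((hf.add hg).smul (a := 1 / 2) (by norm_num)).add
    (((hf.add hg.neg).abs).smul (a := 1 / 2) (by norm_num))
  have e : (fun n t => max (f n t) (g n t))
      = (fun n t => 1 / 2 * (f n t + g n t) + 1 / 2 * |f n t + - g n t|) := by
    funext n t
    rw [← sub_eq_add_neg]
    rcases le_total (f n t) (g n t) with h | h
    · rw [max_eq_right h, abs_of_nonpos (by linarith)]
      ring
    · rw [max_eq_left h, abs_of_nonneg (by linarith)]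
      ring
  rw [e]
  exact h1.mono (by linarith)

/-- maximum of `f 0, …, f M` -/
noncomputable def mx (f : ℕ → ι → T → ℝ) : ℕ → ι → T → ℝ
  | 0 => f 0
  | (M + 1) => fun n t => max (mx f M n t) (f (M + 1) n t)

lemma RB.mx {f : ℕ → ι → T → ℝ} {C : ℝ} (hf : ∀ i, RB (f i) C) (M : ℕ) :
    RB (R860.SL.mx f M) ((M + 1 : ℕ) * C) := by
  induction M with
  | zero => simpa [R860.SL.mx] using hf 0
  | succ M ih =>
    have := ih.maxx (hf (M + 1))
    simp only [R860.SL.mx]
    refine this.mono ?_
    push_cast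
    linarith

lemma le_mx (f : ℕ → ι → T → ℝ) (M : ℕ) (n : ι) (t : T) :
    ∀ i ≤ M, f i n t ≤ mx f M n t := by
  induction M with
  | zero =>
    intro i hi
    have : i = 0 := by omega
    subst this
    exact le_refl _
  | succ M ih =>
    intro i hi
    rcases Nat.lt_or_ge i (M + 1) with h | h
    · exact (ih i (by omega)).trans (le_max_left _ _)
    · have : i = M + 1 := by omega
      subst this
      exact le_max_right _ _

lemma mx_mem (f : ℕ → ι → T → ℝ) (M : ℕ) (n : ι) (t : T) :
    ∃ i ≤ M, mx f M n t = f i n t := by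
  induction M with
  | zero => exact ⟨0, le_refl _, rfl⟩
  | succ M ih =>
    obtain ⟨i, hi, h⟩ := ih
    rcases le_total (mx f M n t) (f (M + 1) n t) with h' | h'
    · exact ⟨M + 1, le_refl _, max_eq_right h'⟩
    · exact ⟨i, by omega, (max_eq_left h').trans h⟩

/-- perturbation -/
lemma RB.approx {f g : ι → T → ℝ} {C η : ℝ} (hg : RB g C) (h : ∀ n t, |f n t - g n t| ≤ η) :
    RB f (C + Fintype.card ι * η) := by
  intro τ
  have h1 : ∀ r : ι → ℤˣ, ∑ n, sg (r n) * f n (τ r)
      ≤ ∑ n, sg (r n) * g n (τ r) + Fintype.card ι * η := by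
    intro r
    have : ∑ n, sg (r n) * f n (τ r) - ∑ n, sg (r n) * g n (τ r)
        = ∑ n, sg (r n) * (f n (τ r) - g n (τ r)) := by
      rw [← Finset.sum_sub_distrib]
      apply Finset.sum_congr rfl
      intro n _
      ring
    have h2 : ∑ n, sg (r n) * (f n (τ r) - g n (τ r)) ≤ ∑ _n : ι, η := by
      apply Finset.sum_le_sum
      intro n _
      calc sg (r n) * (f n (τ r) - g n (τ r)) ≤ |sg (r n) * (f n (τ r) - g n (τ r))| :=
            le_abs_self _
        _ = |f n (τ r) - g n (τ r)| := by rw [abs_mul, abs_sg, one_mul]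
        _ ≤ η := h n _
    rw [Finset.sum_const, Finset.card_univ, nsmul_eq_mul] at h2
    linarith
  calc 𝔼 r : ι → ℤˣ, ∑ n, sg (r n) * f n (τ r)
      ≤ 𝔼 r : ι → ℤˣ, (∑ n, sg (r n) * g n (τ r) + Fintype.card ι * η) :=
        Finset.expect_le_expect (fun r _ => h1 r)
    _ = 𝔼 r : ι → ℤˣ, ∑ n, sg (r n) * g n (τ r) + Fintype.card ι * η := by
        rw [Finset.expect_add_distrib, Finset.expect_const Finset.univ_nonempty]
    _ ≤ C + Fintype.card ι * η := by
        have := hg τ
        linarith

/-- two-sided form: if all functions vanish at a point `z`, then the two-sided supremum is at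
most twice the one-sided bound -/
lemma RB.two_sided {f : ι → T → ℝ} {C : ℝ} (hf : RB f C) (z : T) (hz : ∀ n, f n z = 0)
    (τ : (ι → ℤˣ) → T) : 𝔼 r : ι → ℤˣ, |∑ n, sg (r n) * f n (τ r)| ≤ 2 * C := by
  classical
  set σ1 : (ι → ℤˣ) → T := fun r => if 0 ≤ ∑ n, sg (r n) * f n (τ r) then τ r else z with h1
  set σ2 : (ι → ℤˣ) → T := fun r => if 0 ≤ ∑ n, sg (r n) * f n (τ r) then z else τ r with h2
  have e : ∀ r : ι → ℤˣ, |∑ n, sg (r n) * f n (τ r)|
      = ∑ n, sg (r n) * f n (σ1 r) + ∑ n, sg (r n) * (- f n (σ2 r)) := by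
    intro r
    by_cases h : 0 ≤ ∑ n, sg (r n) * f n (τ r)
    · have s1 : σ1 r = τ r := by simp only [h1]; rw [if_pos h]
      have s2 : σ2 r = z := by simp only [h2]; rw [if_pos h]
      rw [s1, s2, abs_of_nonneg h]
      simp [hz]
    · have s1 : σ1 r = z := by simp only [h1]; rw [if_neg h]
      have s2 : σ2 r = τ r := by simp only [h2]; rw [if_neg h]
      rw [s1, s2, abs_of_neg (not_le.mp h)]
      simp [hz]
  simp only [e]
  rw [Finset.expect_add_distrib]
  have := hf σ1
  have := hf.neg σ2
  linarith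

end R860.SL
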