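import Mathlib

/-! Finite nets of bounded sets of bounded dimension, with a uniform number of points. -/

open Set Metric MeasureTheory Module
open scoped ENNReal

namespace R860.SL

lemma card_le_of_sep {E : Type*} [NormedAddCommGroup E] [NormedSpace ℝ E]
    [FiniteDimensional ℝ E] (s : Finset E) {R η : ℝ} (hR : 0 ≤ R) (hη : 0 < η)
    (hs : ∀ c ∈ s, ‖c‖ ≤ R) (h : ∀ c ∈ s, ∀ d ∈ s, c ≠ d → η ≤ ‖c - d‖) :
    (s.card : ℝ) ≤ ((2 * R + η) / η) ^ finrank ℝ E := by
  borelize E
  let μ : Measure E := Measure.addHaar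
  let δ : ℝ := η / 2
  let ρ : ℝ := R + η / 2
  have ρpos : 0 < ρ := by positivity
  have δpos : 0 < δ := by positivity
  set A := ⋃ c ∈ s, ball (c : E) δ with hA
  have D : Set.Pairwise (s : Set E) (Function.onFun Disjoint fun c => ball (c : E) δ) := by
    rintro c hc d hd hcd
    apply ball_disjoint_ball
    rw [dist_eq_norm]
    have := h c hc d hd hcd
    simp only [δ]
    linarith
  have A_subset : A ⊆ ball (0 : E) ρ := by
    refine iUnion₂_subset fun x hx => ?_
    apply ball_subset_ball'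
    rw [dist_zero_right]
    have := hs x hx
    simp only [δ, ρ]
    linarith
  have I :
    (s.card : ℝ≥0∞) * ENNReal.ofReal (δ ^ finrank ℝ E) * μ (ball 0 1) ≤
      ENNReal.ofReal (ρ ^ finrank ℝ E) * μ (ball 0 1) :=
    calc
      (s.card : ℝ≥0∞) * ENNReal.ofReal (δ ^ finrank ℝ E) * μ (ball 0 1) = μ A := by
        rw [hA, measure_biUnion_finset D fun c _ => measurableSet_ball]
        simp only [μ.addHaar_ball_of_pos _ δpos]
        simp only [Finset.sum_const, nsmul_eq_mul, mul_assoc]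
      _ ≤ μ (ball (0 : E) ρ) := measure_mono A_subset
      _ = ENNReal.ofReal (ρ ^ finrank ℝ E) * μ (ball 0 1) := by
        simp only [μ.addHaar_ball_of_pos _ ρpos]
  have J : (s.card : ℝ≥0∞) * ENNReal.ofReal (δ ^ finrank ℝ E) ≤ ENNReal.ofReal (ρ ^ finrank ℝ E) :=
    (ENNReal.mul_le_mul_iff_left (measure_ball_pos _ _ zero_lt_one).ne' measure_ball_lt_top.ne).1 I
  have K := ENNReal.toReal_le_of_le_ofReal (pow_nonneg ρpos.le _) J
  rw [ENNReal.toReal_mul, ENNReal.toReal_ofReal (pow_nonneg δpos.le _)] at K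
  simp only [ENNReal.toReal_natCast] at K
  have hδn : 0 < δ ^ finrank ℝ E := by positivity
  have h1 : (s.card : ℝ) ≤ ρ ^ finrank ℝ E / δ ^ finrank ℝ E := by
    rw [le_div_iff₀ hδn]
    exact K
  rw [← div_pow] at h1
  have h2 : ρ / δ = (2 * R + η) / η := by
    simp only [ρ, δ]
    field_simp
  rwa [h2] at h1

variable {X : Type*} [NormedAddCommGroup X] [NormedSpace ℝ X]

lemma card_le_of_sep' (d : ℕ) {C η : ℝ} (hC : 0 ≤ C) (hη : 0 < η) (K : Set X)
    (hKb : ∀ a ∈ K, ‖a‖ ≤ C) (hKd : Module.rank ℝ (affineSpan ℝ K).direction ≤ d)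
    (s : Finset X) (hsK : (s : Set X) ⊆ K)
    (h : ∀ c ∈ s, ∀ e ∈ s, c ≠ e → η ≤ ‖c - e‖) (hne : K.Nonempty) :
    s.card ≤ ⌈((2 * (2 * C) + η) / η) ^ d⌉₊ := by
  classical
  obtain ⟨a0, ha0⟩ := hne
  set V : Submodule ℝ X := (affineSpan ℝ K).direction with hV
  haveI : FiniteDimensional ℝ V := by
    rw [FiniteDimensional, ← Module.rank_lt_aleph0_iff]
    exact lt_of_le_of_lt hKd (Cardinal.natCast_lt_aleph0)
  have hfr : finrank ℝ V ≤ d := Module.finrank_le_of_rank_le hKd
  have hmem : ∀ x ∈ K, x - a0 ∈ V := by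
    intro x hx
    exact AffineSubspace.vsub_mem_direction (subset_affineSpan ℝ K hx) (subset_affineSpan ℝ K ha0)
  let φ : {x // x ∈ s} → V := fun x => ⟨x.1 - a0, hmem x.1 (hsK x.2)⟩
  have hφ : Function.Injective φ := by
    intro x y hxy
    have : x.1 - a0 = y.1 - a0 := congrArg Subtype.val hxy
    exact Subtype.ext (sub_left_injective this)
  let t : Finset V := Finset.univ.image φ
  have ht : t.card = s.card := by
    rw [Finset.card_image_of_injective _ hφ, Finset.card_univ, Fintype.card_coe]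
  have h1 : (t.card : ℝ) ≤ ((2 * (2 * C) + η) / η) ^ finrank ℝ V := by
    apply card_le_of_sep t (by positivity) hη
    · intro c hc
      obtain ⟨x, -, rfl⟩ := Finset.mem_image.mp hc
      have : ‖x.1 - a0‖ ≤ 2 * C := by
        have h1 := hKb x.1 (hsK x.2)
        have h2 := hKb a0 ha0
        have h3 := norm_sub_le x.1 a0
        linarith
      exact this
    · intro c hc e he hce
      obtain ⟨x, -, rfl⟩ := Finset.mem_image.mp hc
      obtain ⟨y, -, rfl⟩ := Finset.mem_image.mp he
      have hxy : x.1 ≠ y.1 := by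
        intro h'
        apply hce
        rw [Subtype.ext h']
      have := h x.1 x.2 y.1 y.2 hxy
      have e1 : ‖φ x - φ y‖ = ‖x.1 - y.1‖ := by
        have : ((φ x - φ y : V) : X) = x.1 - y.1 := by
          simp [φ]
        rw [← this]
        rfl
      rw [e1]
      exact this
  have hbase : 1 ≤ (2 * (2 * C) + η) / η := by
    rw [le_div_iff₀ hη]
    linarith
  have h2 : (s.card : ℝ) ≤ ((2 * (2 * C) + η) / η) ^ d := by
    rw [← ht]
    exact h1.trans (pow_le_pow_right₀ hbase hfr)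
  have h3 := h2.trans (Nat.le_ceil _)
  exact_mod_cast h3

lemma exists_net (d : ℕ) {C η : ℝ} (hC : 0 ≤ C) (hη : 0 < η) :
    ∃ M : ℕ, ∀ K : Set X, K.Nonempty → (∀ a ∈ K, ‖a‖ ≤ C) →
      Module.rank ℝ (affineSpan ℝ K).direction ≤ d →
      ∃ p : ℕ → X, (∀ i, p i ∈ K) ∧ ∀ a ∈ K, ∃ i ≤ M, ‖a - p i‖ ≤ η := by
  classical
  refine ⟨⌈((2 * (2 * C) + η) / η) ^ d⌉₊, ?_⟩
  intro K hne hKb hKd
  set M := ⌈((2 * (2 * C) + η) / η) ^ d⌉₊ with hM
  obtain ⟨a0, ha0⟩ := id hne
  -- existence of a finite net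
  have hnet : ∃ s : Finset X, (s : Set X) ⊆ K ∧ s.card ≤ M ∧ ∀ a ∈ K, ∃ q ∈ s, ‖a - q‖ ≤ η := by
    by_contra hcon
    push Not at hcon
    have key : ∀ n : ℕ, ∃ s : Finset X, s.card = n ∧ (s : Set X) ⊆ K ∧
        ∀ c ∈ s, ∀ e ∈ s, c ≠ e → η ≤ ‖c - e‖ := by
      intro n
      induction n with
      | zero => exact ⟨∅, by simp, by simp, by simp⟩
      | succ n ih =>
        obtain ⟨s, hs, hsK, hsep⟩ := ih
        have hcard : s.card ≤ M := card_le_of_sep' d hC hη K hKb hKd s hsK hsep hne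
        obtain ⟨a, ha, haq⟩ := hcon s hsK hcard
        have has : a ∉ s := by
          intro h
          have := haq a h
          rw [sub_self, norm_zero] at this
          linarith
        refine ⟨insert a s, ?_, ?_, ?_⟩
        · rw [Finset.card_insert_of_notMem has, hs]
        · rw [Finset.coe_insert]
          exact Set.insert_subset ha hsK
        · intro c hc e he hce
          rcases Finset.mem_insert.mp hc with h1 | hc1
          · rcases Finset.mem_insert.mp he with h2 | he1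
            · exact absurd (h1.trans h2.symm) hce
            · rw [h1]
              exact (haq e he1).le
          · rcases Finset.mem_insert.mp he with h2 | he1
            · rw [norm_sub_rev, h2]
              exact (haq c hc1).le
            · exact hsep c hc1 e he1 hce
    obtain ⟨s, hs, hsK, hsep⟩ := key (M + 1)
    have := card_le_of_sep' d hC hη K hKb hKd s hsK hsep hne
    omega
  obtain ⟨s, hsK, hcard, hs⟩ := hnet
  refine ⟨fun i => if h : i < s.card then (s.equivFin.symm ⟨i, h⟩ : X) else a0, ?_, ?_⟩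
  · intro i
    by_cases h : i < s.card
    · simp only [h, dif_pos]
      exact hsK (s.equivFin.symm ⟨i, h⟩).2
    · simp only [h, dif_neg, not_false_eq_true]
      exact ha0
  · intro a ha
    obtain ⟨q, hq, hqa⟩ := hs a ha
    refine ⟨(s.equivFin ⟨q, hq⟩ : ℕ), ?_, ?_⟩
    · exact ((s.equivFin ⟨q, hq⟩).2.le).trans hcard
    · have h : ((s.equivFin ⟨q, hq⟩ : Fin s.card) : ℕ) < s.card := (s.equivFin ⟨q, hq⟩).2
      simp only [h, dif_pos, Fin.eta, Equiv.symm_apply_apply]
      exact hqa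

end R860.SL
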