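import Pool.Agent.R860.SL.BConv
import Pool.Agent.R860.SL.Contr
import Pool.Agent.R860.SL.Net

/-! Rademacher averages of support functions of sets of dimension at most `d`. -/

open Finset
open scoped BigOperators BoundedContinuousFunction

namespace R860.SL

variable {X : Type*} [NormedAddCommGroup X] [NormedSpace ℝ X]

/-- the dual unit ball -/
abbrev DB (X : Type*) [NormedAddCommGroup X] [NormedSpace ℝ X] : Type _ :=
  {f : StrongDual ℝ X // ‖f‖ ≤ 1}

lemma rb_linear {ι : Type*} [Fintype ι] [DecidableEq ι] (x : ι → X) :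
    RB (fun n (t : DB X) => t.1 (x n)) (𝔼 r : ι → ℤˣ, ‖∑ i, sg (r i) • x i‖) := by
  intro τ
  apply Finset.expect_le_expect
  intro r _
  have h1 : ∑ n, sg (r n) * (τ r).1 (x n) = (τ r).1 (∑ n, sg (r n) • x n) := by
    rw [map_sum]
    apply Finset.sum_congr rfl
    intro n _
    rw [map_smul, smul_eq_mul]
  rw [h1]
  calc (τ r).1 (∑ n, sg (r n) • x n) ≤ ‖(τ r).1 (∑ n, sg (r n) • x n)‖ := Real.le_norm_self _
    _ ≤ ‖(τ r).1‖ * ‖∑ n, sg (r n) • x n‖ := (τ r).1.le_opNorm _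
    _ ≤ 1 * ‖∑ n, sg (r n) • x n‖ := by
        apply mul_le_mul_of_nonneg_right (τ r).2 (norm_nonneg _)
    _ = _ := one_mul _

/-- the support function on the dual ball -/
noncomputable def sF (K : Set X) (t : DB X) : ℝ := sSup (t.1 '' K)

lemma bddAbove_image {K : Set X} {C : ℝ} (hC : 0 ≤ C) (hK : ∀ a ∈ K, ‖a‖ ≤ C)
    (f : StrongDual ℝ X) : BddAbove (f '' K) := by
  refine ⟨‖f‖ * C, ?_⟩
  rintro _ ⟨a, ha, rfl⟩
  calc f a ≤ ‖f a‖ := Real.le_norm_self _
    _ ≤ ‖f‖ * ‖a‖ := f.le_opNorm a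
    _ ≤ ‖f‖ * C := mul_le_mul_of_nonneg_left (hK a ha) (norm_nonneg _)

lemma sF_zero {K : Set X} (hne : K.Nonempty) : sF K ⟨0, by simp⟩ = 0 := by
  have : ((0 : StrongDual ℝ X) : X → ℝ) '' K = {0} := by
    ext y
    constructor
    · rintro ⟨a, -, rfl⟩
      simp
    · rintro rfl
      obtain ⟨a, ha⟩ := hne
      exact ⟨a, ha, by simp⟩
  simp only [sF]
  rw [this, csSup_singleton]

lemma sF_approx {ι : Type*} [Fintype ι] [DecidableEq ι] {K : ι → Set X} {C η : ℝ} (hC : 0 ≤ C)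
    (hKb : ∀ n, ∀ a ∈ K n, ‖a‖ ≤ C) (M : ℕ) (p : ι → ℕ → X) (hp : ∀ n i, p n i ∈ K n)
    (hpn : ∀ n, ∀ a ∈ K n, ∃ i ≤ M, ‖a - p n i‖ ≤ η) (hη : 0 ≤ η) (n : ι) (t : DB X) :
    |sF (K n) t - mx (fun i n (t : DB X) => t.1 (p n i)) M n t| ≤ η := by
  rw [abs_le]
  constructor
  · obtain ⟨i, -, hi⟩ := mx_mem (fun i n (t : DB X) => t.1 (p n i)) M n t
    rw [hi]
    have h1 : t.1 (p n i) ≤ sF (K n) t :=
      le_csSup (bddAbove_image hC (hKb n) t.1) ⟨p n i, hp n i, rfl⟩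
    linarith
  · have h1 : sF (K n) t ≤ mx (fun i n (t : DB X) => t.1 (p n i)) M n t + η := by
      apply csSup_le
      · exact ⟨_, ⟨p n 0, hp n 0, rfl⟩⟩
      · rintro _ ⟨a, ha, rfl⟩
        obtain ⟨i, hi, hai⟩ := hpn n a ha
        have h2 := le_mx (fun i n (t : DB X) => t.1 (p n i)) M n t i hi
        have h3 : t.1 a - t.1 (p n i) ≤ η := by
          rw [← map_sub]
          calc t.1 (a - p n i) ≤ ‖t.1 (a - p n i)‖ := Real.le_norm_self _
            _ ≤ ‖t.1‖ * ‖a - p n i‖ := t.1.le_opNorm _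
            _ ≤ 1 * η := mul_le_mul t.2 hai (norm_nonneg _) zero_le_one
            _ = η := one_mul η
        linarith
    linarith

/-- the deterministic estimate -/
theorem det_bound {k : ℕ} (hk : 2 ≤ k) {ε : ℝ} (hε : 0 < ε) (hX : BCond X k ε) (d : ℕ) {C : ℝ}
    (hC : 0 ≤ C) {η : ℝ} (hη : 0 < η) :
    ∃ L : ℕ, 0 < L ∧ ∀ (K : Fin L → Set X), (∀ n, (K n).Nonempty) →
      (∀ n, ∀ a ∈ K n, ‖a‖ ≤ C) →
      (∀ n, Module.rank ℝ (affineSpan ℝ (K n)).direction ≤ d) →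
      ∀ h : Fin L → (Metric.sphere (0 : StrongDual ℝ X) 1 →ᵇ ℝ),
        (∀ n f, h n f = sSup ((f : StrongDual ℝ X) '' K n)) →
        𝔼 r : Fin L → ℤˣ, ‖∑ n, sg (r n) • h n‖ ≤ η * L := by
  obtain ⟨M, hM⟩ := exists_net (X := X) d hC (show (0 : ℝ) < η / 4 by positivity)
  obtain ⟨L, hL, hdec⟩ := hX.decay hk hε
    (show (0 : ℝ) < η / (4 * ((M + 1 : ℕ) : ℝ) * (C + 1)) by positivity)
  refine ⟨L, hL, ?_⟩
  intro K hne hKb hKd h hh
  have hch : ∀ n, ∃ p : ℕ → X, (∀ i, p i ∈ K n) ∧ ∀ a ∈ K n, ∃ i ≤ M, ‖a - p i‖ ≤ η / 4 :=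
    fun n => hM (K n) (hne n) (hKb n) (hKd n)
  choose p hp hpn using hch
  set δ : ℝ := η / (4 * ((M + 1 : ℕ) : ℝ) * (C + 1)) with hδ
  have hRBi : ∀ i, RB (fun n (t : DB X) => t.1 (p n i)) (δ * C * L) := by
    intro i
    exact (rb_linear (fun n => p n i)).mono (hdec C hC _ (fun n => hKb n _ (hp n i)))
  have hRBm := RB.mx (f := fun i n (t : DB X) => t.1 (p n i)) hRBi M
  have hRBs : RB (fun n (t : DB X) => sF (K n) t)
      (((M + 1 : ℕ) : ℝ) * (δ * C * L) + Fintype.card (Fin L) * (η / 4)) :=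
    hRBm.approx (fun n t => sF_approx hC hKb M p hp hpn (by positivity) n t)
  rw [Fintype.card_fin] at hRBs
  have hB : ((M + 1 : ℕ) : ℝ) * (δ * C * L) + L * (η / 4) ≤ η * L / 2 := by
    have h1 : ((M + 1 : ℕ) : ℝ) * (δ * C * L) = (C / (C + 1)) * (η / 4 * L) := by
      rw [hδ]
      have : ((M + 1 : ℕ) : ℝ) ≠ 0 := by positivity
      field_simp
    have h2 : C / (C + 1) ≤ 1 := by
      rw [div_le_one (by positivity)]
      linarith
    rw [h1]
    have h3 : 0 ≤ η / 4 * L := by positivity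
    nlinarith
  have hRB := hRBs.mono hB
  have h2s := hRB.two_sided ⟨0, by simp⟩ (fun n => sF_zero (hne n))
  apply le_of_forall_pos_le_add
  intro κ hκ
  -- choose almost norming points
  have hτ : ∀ r : Fin L → ℤˣ, ∃ t : DB X, ‖∑ n, sg (r n) • h n‖ - κ
      ≤ |∑ n, sg (r n) * sF (K n) t| := by
    intro r
    by_cases hsm : ‖∑ n, sg (r n) • h n‖ ≤ κ
    · refine ⟨⟨0, by simp⟩, ?_⟩
      have := abs_nonneg (∑ n, sg (r n) * sF (K n) (⟨0, by simp⟩ : DB X))
      linarith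
    · push Not at hsm
      have hex : ∃ f, ‖∑ n, sg (r n) • h n‖ - κ < ‖(∑ n, sg (r n) • h n) f‖ := by
        by_contra hcon
        push Not at hcon
        have := (BoundedContinuousFunction.norm_le (by linarith)).mpr hcon
        linarith
      obtain ⟨f, hf⟩ := hex
      refine ⟨⟨f.1, ?_⟩, ?_⟩
      · have := f.2
        rw [mem_sphere_zero_iff_norm] at this
        exact this.le
      · have e : (∑ n, sg (r n) • h n) f = ∑ n, sg (r n) * sF (K n) (⟨f.1, by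
            have := f.2
            rw [mem_sphere_zero_iff_norm] at this
            exact this.le⟩ : DB X) := by
          rw [BoundedContinuousFunction.coe_sum, Finset.sum_apply]
          apply Finset.sum_congr rfl
          intro n _
          have e2 : (sg (r n) • h n) f = sg (r n) * h n f := rfl
          rw [e2, hh n f]
          rfl
        rw [e, Real.norm_eq_abs] at hf
        exact hf.le
  choose τ hτ using hτ
  calc 𝔼 r : Fin L → ℤˣ, ‖∑ n, sg (r n) • h n‖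
      ≤ 𝔼 r : Fin L → ℤˣ, (|∑ n, sg (r n) * sF (K n) (τ r)| + κ) :=
        Finset.expect_le_expect (fun r _ => by have := hτ r; linarith)
    _ = 𝔼 r : Fin L → ℤˣ, |∑ n, sg (r n) * sF (K n) (τ r)| + κ := by
        rw [Finset.expect_add_distrib, Finset.expect_const Finset.univ_nonempty]
    _ ≤ η * L + κ := by
        have := h2s τ
        linarith

end R860.SL
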