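import Pool.Agent.R860.SL.Vec

/-! Reduction of the general case to a separable closed subspace. -/

open Finset MeasureTheory ProbabilityTheory Filter Topology TopologicalSpace
open scoped BigOperators

namespace R860.SL

variable {Ω : Type*} [MeasurableSpace Ω] {P : Measure Ω} [IsProbabilityMeasure P]
variable {Z : Type*} [NormedAddCommGroup Z] [NormedSpace ℝ Z] [CompleteSpace Z]
  [MeasurableSpace Z] [BorelSpace Z]

theorem vec_slln_gen {Y : ℕ → Ω → Z} (hYi : ∀ i, Integrable (Y i) P)
    (hind : iIndepFun Y P) {C : ℝ} (hC : ∀ i ω, ‖Y i ω‖ ≤ C)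
    (hA : ∀ η : ℝ, 0 < η → ∃ L : ℕ, 0 < L ∧ ∀ (m : ℕ) (ω : Ω),
      𝔼 r : Fin L → ℤˣ, ‖∑ i, sg (r i) • Y (m + i) ω‖ ≤ η * L) :
    ∀ᵐ ω ∂P, Tendsto (fun n : ℕ => ‖∑ i ∈ range n, (Y i ω - ∫ ω', Y i ω' ∂P)‖ / (n : ℝ))
      atTop (𝓝 0) := by
  classical
  have hC0 : 0 ≤ C := by
    obtain ⟨ω⟩ := nonempty_of_isProbabilityMeasure P
    exact (norm_nonneg _).trans (hC 0 ω)
  set g : ℕ → Ω → Z := fun i => (hYi i).1.mk (Y i) with hg
  have hgs : ∀ i, StronglyMeasurable (g i) := fun i => (hYi i).1.stronglyMeasurable_mk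
  have hgY : ∀ i, Y i =ᵐ[P] g i := fun i => (hYi i).1.ae_eq_mk
  set S : Set Z := ⋃ i, Set.range (g i) with hS
  have hSsep : IsSeparable S := IsSeparable.iUnion (fun i => (hgs i).isSeparable_range)
  set V : Submodule ℝ Z := (Submodule.span ℝ S).topologicalClosure with hV
  have hVsep : IsSeparable (V : Set Z) := by
    rw [hV, Submodule.topologicalClosure_coe]
    exact (hSsep.span).closure
  haveI : SeparableSpace V := hVsep.separableSpace
  haveI : SecondCountableTopology V := UniformSpace.secondCountable_of_separable V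
  haveI : CompleteSpace V := by
    have : IsClosed (V : Set Z) := Submodule.isClosed_topologicalClosure _
    exact this.completeSpace_coe
  have hgV : ∀ i ω, g i ω ∈ V := by
    intro i ω
    apply Submodule.le_topologicalClosure
    apply Submodule.subset_span
    exact Set.mem_iUnion.mpr ⟨i, ω, rfl⟩
  let Y' : ℕ → Ω → V := fun i ω => if ‖g i ω‖ ≤ C then ⟨g i ω, hgV i ω⟩ else 0
  have hY'm : ∀ i, Measurable (Y' i) := by
    intro i
    apply Measurable.ite
    · exact measurableSet_le (hgs i).norm.measurable measurable_const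
    · exact Measurable.subtype_mk (hgs i).measurable
    · exact measurable_const
  have hY'b : ∀ i ω, ‖Y' i ω‖ ≤ C := by
    intro i ω
    by_cases h : ‖g i ω‖ ≤ C
    · simp only [Y', h, if_true]
      exact h
    · simp only [Y', h, if_false, norm_zero]
      exact hC0
  have hY'Y : ∀ i, ∀ᵐ ω ∂P, ((Y' i ω : V) : Z) = Y i ω := by
    intro i
    filter_upwards [hgY i] with ω hω
    have h : ‖g i ω‖ ≤ C := by rw [← hω]; exact hC i ω
    simp only [Y', h, if_true]
    exact hω.symm
  have hall : ∀ᵐ ω ∂P, ∀ i, ((Y' i ω : V) : Z) = Y i ω := ae_all_iff.mpr hY'Y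
  have hind1 : iIndepFun (fun i ω => ((Y' i ω : V) : Z)) P :=
    hind.congr (fun i => by
      filter_upwards [hY'Y i] with ω hω
      exact hω.symm)
  have hind2 : iIndepFun Y' P := by
    rw [iIndepFun_iff_iIndep] at hind1 ⊢
    have e : ∀ i, MeasurableSpace.comap (Y' i) (inferInstance : MeasurableSpace V)
        = MeasurableSpace.comap (fun ω => ((Y' i ω : V) : Z)) (inferInstance : MeasurableSpace Z) := by
      intro i
      exact MeasurableSpace.comap_comp
    simp only [e]
    exact hind1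
  have hint : ∀ i, ((∫ ω, Y' i ω ∂P : V) : Z) = ∫ ω, Y i ω ∂P := by
    intro i
    have h1 := ContinuousLinearMap.integral_comp_comm (V.subtypeL)
      (integrable_of_bdd (P := P) (hY'm i) (hY'b i))
    have h2 : ∫ ω, V.subtypeL (Y' i ω) ∂P = ∫ ω, Y i ω ∂P := by
      apply integral_congr_ae
      filter_upwards [hY'Y i] with ω hω
      exact hω
    rw [← h2, h1]
    rfl
  have key := vec_slln hY'm hind2 hY'b (by
    intro η hη
    obtain ⟨L, hL, hAL⟩ := hA η hη
    refine ⟨L, hL, fun m => ?_⟩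
    filter_upwards [hall] with ω hω
    have h1 := hAL m ω
    refine le_trans (le_of_eq ?_) h1
    apply Finset.expect_congr rfl
    intro r _
    have e : ((∑ i : Fin L, sg (r i) • Y' (m + i) ω : V) : Z) = ∑ i : Fin L, sg (r i) • Y (m + i) ω := by
      rw [AddSubmonoidClass.coe_finset_sum]
      apply Finset.sum_congr rfl
      intro i _
      rw [Submodule.coe_smul, hω]
    rw [← e]
    rfl)
  filter_upwards [key, hall] with ω hω hω2
  refine hω.congr ?_
  intro n
  congr 1
  have e : ((∑ i ∈ range n, (Y' i ω - ∫ ω', Y' i ω' ∂P) : V) : Z)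
      = ∑ i ∈ range n, (Y i ω - ∫ ω', Y i ω' ∂P) := by
    rw [AddSubmonoidClass.coe_finset_sum]
    apply Finset.sum_congr rfl
    intro i _
    rw [Submodule.coe_sub, hω2, hint]
  rw [← e]
  rfl

end R860.SL
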