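import Mathlib

/-! Support functions of Minkowski sums and the Hausdorff distance. -/

open Finset Filter Topology Metric
open scoped Pointwise

namespace R860.SL

variable {X : Type*} [NormedAddCommGroup X] [NormedSpace ℝ X]

/-- nonempty, bounded and convex -/
def Good (A : Set X) : Prop := A.Nonempty ∧ Bornology.IsBounded A ∧ Convex ℝ A

lemma Good.add {A B : Set X} (hA : Good A) (hB : Good B) : Good (A + B) :=
  ⟨hA.1.add hB.1, hA.2.1.add hB.2.1, hA.2.2.add hB.2.2⟩

lemma good_zero : Good (0 : Set X) := by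
  refine ⟨Set.singleton_nonempty _, ?_, ?_⟩
  · exact Bornology.isBounded_singleton
  · exact convex_singleton _

lemma good_sum {A : ℕ → Set X} (hA : ∀ i, Good (A i)) (s : Finset ℕ) : Good (∑ i ∈ s, A i) := by
  classical
  induction s using Finset.induction_on with
  | empty => simpa using good_zero
  | insert i s hi ih =>
    rw [Finset.sum_insert hi]
    exact (hA i).add ih

lemma Good.smul {A : Set X} (hA : Good A) (c : ℝ) : Good (c • A) :=
  ⟨hA.1.smul_set, hA.2.1.smul₀ c, hA.2.2.smul c⟩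

lemma Good.bdd {A : Set X} (hA : Good A) (f : StrongDual ℝ X) : BddAbove (f '' A) := by
  obtain ⟨C, hC⟩ := hA.2.1.exists_norm_le
  refine ⟨‖f‖ * C, ?_⟩
  rintro _ ⟨a, ha, rfl⟩
  calc f a ≤ ‖f a‖ := Real.le_norm_self _
    _ ≤ ‖f‖ * ‖a‖ := f.le_opNorm a
    _ ≤ ‖f‖ * C := mul_le_mul_of_nonneg_left (hC a ha) (norm_nonneg _)

lemma sup_sum {A : ℕ → Set X} (hA : ∀ i, Good (A i)) (f : StrongDual ℝ X) (s : Finset ℕ) :
    sSup (f '' (∑ i ∈ s, A i)) = ∑ i ∈ s, sSup (f '' A i) := by
  classical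
  induction s using Finset.induction_on with
  | empty =>
    have : f '' (0 : Set X) = {0} := by
      rw [← Set.singleton_zero, Set.image_singleton, map_zero]
    rw [Finset.sum_empty, Finset.sum_empty, this, csSup_singleton]
  | insert i s hi ih =>
    rw [Finset.sum_insert hi, Finset.sum_insert hi, Set.image_add,
      csSup_add ((hA i).1.image _) ((hA i).bdd f) ((good_sum hA s).1.image _)
        ((good_sum hA s).bdd f), ih]

lemma sup_smul {A : Set X} (f : StrongDual ℝ X) {c : ℝ} (hc : 0 ≤ c) :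
    sSup (f '' (c • A)) = c * sSup (f '' A) := by
  have : f '' (c • A) = c • (f '' A) := by
    rw [Set.image_smul_comm]
    intro x
    exact map_smul f c x
  rw [this, Real.sSup_smul_of_nonneg hc, smul_eq_mul]

lemma infDist_le_of_sup {A B : Set X} (hA : Good A) (hB : Good B) {r : ℝ} (hr : 0 ≤ r)
    (h : ∀ f : StrongDual ℝ X, ‖f‖ = 1 → sSup (f '' A) ≤ sSup (f '' B) + r) :
    ∀ a ∈ A, infDist a B ≤ r := by
  intro a ha
  by_contra hcon
  push Not at hcon
  obtain ⟨r', hr1, hr2⟩ := exists_between hcon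
  obtain ⟨r'', hr3, hr4⟩ := exists_between hr1
  have hr''pos : 0 < r'' := lt_of_le_of_lt hr hr3
  have hdisj : Disjoint (ball a r') B := by
    rw [Set.disjoint_left]
    intro y hy hyB
    have h1 : infDist a B ≤ dist a y := infDist_le_dist_of_mem hyB
    rw [mem_ball, dist_comm] at hy
    linarith
  obtain ⟨f, u, hfu, hub⟩ := geometric_hahn_banach_open (convex_ball a r') isOpen_ball hB.2.2 hdisj
  have hr'pos : 0 < r' := hr''pos.trans hr4
  have hfa : f a < u := hfu a (mem_ball_self hr'pos)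
  obtain ⟨b, hb⟩ := hB.1
  have hfne : f ≠ 0 := by
    intro h0
    have := hub b hb
    rw [h0] at this hfa
    simp only [ContinuousLinearMap.zero_apply] at this hfa
    linarith
  have hfpos : 0 < ‖f‖ := norm_pos_iff.mpr hfne
  have hbound : ‖f‖ ≤ (u - f a) / r'' := by
    apply ContinuousLinearMap.opNorm_bound_of_ball_bound hr''pos
    intro z hz
    rw [mem_closedBall_zero_iff] at hz
    rw [Real.norm_eq_abs, abs_le]
    constructor
    · have h1 := hfu (a - z) (by
        rw [mem_ball, dist_eq_norm]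
        have : a - z - a = -z := by abel
        rw [this, norm_neg]
        linarith)
      rw [map_sub] at h1
      linarith
    · have h1 := hfu (a + z) (by
        rw [mem_ball, dist_eq_norm]
        have : a + z - a = z := by abel
        rw [this]
        linarith)
      rw [map_add] at h1
      linarith
  rw [le_div_iff₀ hr''pos] at hbound
  -- the normalised functional
  set g : StrongDual ℝ X := (-(‖f‖⁻¹)) • f with hg
  have hgn : ‖g‖ = 1 := by
    rw [hg, norm_smul, norm_neg, norm_inv, norm_norm]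
    exact inv_mul_cancel₀ hfpos.ne'
  have h1 := h g hgn
  have h2 : g a ≤ sSup (g '' A) := le_csSup (hA.bdd g) ⟨a, ha, rfl⟩
  have h3 : sSup (g '' B) ≤ -(‖f‖⁻¹) * u := by
    apply csSup_le (hB.1.image _)
    rintro _ ⟨b, hb, rfl⟩
    have h4 := hub b hb
    have h5 : g b = -(‖f‖⁻¹) * f b := rfl
    rw [h5]
    have h6 : 0 < ‖f‖⁻¹ := inv_pos.mpr hfpos
    nlinarith
  have h7 : g a = -(‖f‖⁻¹) * f a := rfl
  have h8 : ‖f‖⁻¹ * (u - f a) ≤ r := by
    rw [h7] at h2
    linarith
  rw [inv_mul_le_iff₀ hfpos] at h8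
  nlinarith

/-- the Hausdorff distance is bounded by the distance of support functions -/
lemma haus_le {A B : Set X} (hA : Good A) (hB : Good B) {r : ℝ} (hr : 0 ≤ r)
    (h : ∀ f : StrongDual ℝ X, ‖f‖ = 1 → |sSup (f '' A) - sSup (f '' B)| ≤ r) :
    hausdorffDist A B ≤ r := by
  apply hausdorffDist_le_of_infDist hr
  · apply infDist_le_of_sup hA hB hr
    intro f hf
    have := (abs_le.mp (h f hf)).2
    linarith
  · apply infDist_le_of_sup hB hA hr
    intro f hf
    have := (abs_le.mp (h f hf)).1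
    linarith

/-- continuity of the support function -/
lemma supp_lip {A : Set X} (hne : A.Nonempty) {C : ℝ} (hC : 0 ≤ C) (hA : ∀ a ∈ A, ‖a‖ ≤ C)
    (f g : StrongDual ℝ X) : sSup (f '' A) ≤ sSup (g '' A) + C * ‖f - g‖ := by
  apply csSup_le (hne.image _)
  rintro _ ⟨a, ha, rfl⟩
  have hbdd : BddAbove (g '' A) := by
    refine ⟨‖g‖ * C, ?_⟩
    rintro _ ⟨a, ha, rfl⟩
    calc g a ≤ ‖g a‖ := Real.le_norm_self _
      _ ≤ ‖g‖ * ‖a‖ := g.le_opNorm a
      _ ≤ ‖g‖ * C := mul_le_mul_of_nonneg_left (hA a ha) (norm_nonneg _)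
  have h1 : g a ≤ sSup (g '' A) := le_csSup hbdd ⟨a, ha, rfl⟩
  have h2 : f a - g a ≤ C * ‖f - g‖ := by
    calc f a - g a = (f - g) a := rfl
      _ ≤ ‖(f - g) a‖ := Real.le_norm_self _
      _ ≤ ‖f - g‖ * ‖a‖ := (f - g).le_opNorm a
      _ ≤ ‖f - g‖ * C := mul_le_mul_of_nonneg_left (hA a ha) (norm_nonneg _)
      _ = C * ‖f - g‖ := mul_comm _ _
  linarith

lemma supp_cont {A : Set X} (hne : A.Nonempty) (hb : Bornology.IsBounded A) :
    Continuous (fun f : StrongDual ℝ X => sSup (f '' A)) := by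
  obtain ⟨C, hC0, hC⟩ := hb.exists_pos_norm_le
  rw [Metric.continuous_iff]
  intro g ε hε
  refine ⟨ε / C, by positivity, ?_⟩
  intro f hf
  rw [dist_eq_norm] at hf
  have h1 := supp_lip hne hC0.le hC f g
  have h2 := supp_lip hne hC0.le hC g f
  rw [norm_sub_rev] at h2
  rw [lt_div_iff₀ hC0] at hf
  rw [Real.dist_eq, abs_lt]
  constructor <;> linarith

lemma supp_bound {A : Set X} (hne : A.Nonempty) {C : ℝ} (hC : 0 ≤ C) (hA : ∀ a ∈ A, ‖a‖ ≤ C)
    {f : StrongDual ℝ X} (hf : ‖f‖ = 1) : |sSup (f '' A)| ≤ C := by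
  have h1 : ∀ a ∈ A, |f a| ≤ C := by
    intro a ha
    calc |f a| = ‖f a‖ := rfl
      _ ≤ ‖f‖ * ‖a‖ := f.le_opNorm a
      _ ≤ 1 * C := by rw [hf]; exact mul_le_mul_of_nonneg_left (hA a ha) zero_le_one
      _ = C := one_mul C
  obtain ⟨a, ha⟩ := hne
  rw [abs_le]
  constructor
  · have h2 : f a ≤ sSup (f '' A) := by
      refine le_csSup ?_ (Set.mem_image_of_mem f ha)
      refine ⟨C, ?_⟩
      rintro _ ⟨b, hb, rfl⟩
      exact (abs_le.mp (h1 b hb)).2
    have := (abs_le.mp (h1 a ha)).1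
    linarith
  · apply csSup_le ⟨f a, Set.mem_image_of_mem f ha⟩
    rintro _ ⟨b, hb, rfl⟩
    exact (abs_le.mp (h1 b hb)).2

end R860.SL
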