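import Mathlib

/-! Rademacher averages over the finite group `ι → ℤˣ`; quadratic bounds; contraction. -/

open Finset
open scoped BigOperators

namespace R860.SL

/-- the sign as a real number -/
noncomputable def sg (u : ℤˣ) : ℝ := ((u : ℤ) : ℝ)

lemma sg_one : sg 1 = 1 := by simp [sg]
lemma sg_neg (u : ℤˣ) : sg (-u) = - sg u := by simp [sg]
lemma sg_mul (u v : ℤˣ) : sg (u * v) = sg u * sg v := by simp [sg]
lemma sg_cases (u : ℤˣ) : sg u = 1 ∨ sg u = -1 := by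
  rcases Int.units_eq_one_or u with h | h <;> simp [sg, h]
lemma abs_sg (u : ℤˣ) : |sg u| = 1 := by
  rcases sg_cases u with h | h <;> simp [h]

section Group

variable {G H : Type*} [Group G] [Fintype G] [Group H] [Fintype H]

lemma ex_mul_left (F : G → ℝ) (g : G) : 𝔼 r, F (g * r) = 𝔼 r, F r :=
  Finset.expect_equiv (Equiv.mulLeft g) (by simp) (by simp)

/-- push-forward of the uniform average -/
lemma ex_push (π : G → H) (j : H → G) (hπ : ∀ h g, π (j h * g) = h * π g) (F : H → ℝ) :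
    𝔼 g, F (π g) = 𝔼 h, F h := by
  have h1 : ∀ h : H, 𝔼 g, F (π g) = 𝔼 g, F (h * π g) := by
    intro h
    rw [← ex_mul_left (fun g => F (π g)) (j h)]
    simp only [hπ]
  have h2 : 𝔼 g, F (π g) = 𝔼 _h : H, 𝔼 g, F (π g) := by
    rw [Finset.expect_const Finset.univ_nonempty]
  rw [h2]
  have h3 : 𝔼 _h : H, 𝔼 g, F (π g) = 𝔼 h : H, 𝔼 g, F (h * π g) := by
    apply Finset.expect_congr rfl
    intro h _
    exact h1 h
  rw [h3, Finset.expect_comm]
  have h4 : ∀ g : G, 𝔼 h : H, F (h * π g) = 𝔼 h : H, F h := by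
    intro g
    exact Finset.expect_equiv (Equiv.mulRight (π g)) (by simp) (by simp)
  simp only [h4]
  rw [Finset.expect_const Finset.univ_nonempty]

end Group

section QB

variable {X : Type*} [NormedAddCommGroup X] [NormedSpace ℝ X]

/-- quadratic bound for Rademacher sums indexed by `ι` -/
def QB (X : Type*) [NormedAddCommGroup X] [NormedSpace ℝ X] (c : ℝ)
    (ι : Type*) [Fintype ι] [DecidableEq ι] : Prop :=
  ∀ x : ι → X, 𝔼 r : ι → ℤˣ, ‖∑ i, sg (r i) • x i‖ ^ 2 ≤ c * Fintype.card ι * ∑ i, ‖x i‖ ^ 2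

lemma QB.congr {c : ℝ} {ι κ : Type*} [Fintype ι] [DecidableEq ι] [Fintype κ] [DecidableEq κ]
    (e : ι ≃ κ) (h : QB X c ι) : QB X c κ := by
  intro x
  have h1 := h (fun i => x (e i))
  have h2 : 𝔼 r : κ → ℤˣ, ‖∑ i, sg (r i) • x i‖ ^ 2
      = 𝔼 r : ι → ℤˣ, ‖∑ i, sg (r i) • x (e i)‖ ^ 2 := by
    symm
    refine Finset.expect_equiv (Equiv.arrowCongr e (Equiv.refl _)) (by simp) ?_
    intro r _
    congr 2
    rw [← e.sum_comp]
    simp [Equiv.arrowCongr]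
  rw [h2, ← Fintype.card_congr e, ← e.sum_comp]
  exact h1

lemma QB.prod {c c' : ℝ} {α β : Type*} [Fintype α] [DecidableEq α] [Fintype β] [DecidableEq β]
    (hc : 0 ≤ c) (h : QB X c α) (h' : QB X c' β) : QB X (c * c') (α × β) := by
  intro x
  have h1 : 𝔼 r : α × β → ℤˣ, ‖∑ i, sg (r i) • x i‖ ^ 2
      = 𝔼 r : α × β → ℤˣ, 𝔼 q : α → ℤˣ, ‖∑ a, sg (q a) • ∑ b, sg (r (a, b)) • x (a, b)‖ ^ 2 := by
    have e1 : ∀ q : α → ℤˣ, 𝔼 r : α × β → ℤˣ, ‖∑ i, sg (r i) • x i‖ ^ 2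
        = 𝔼 r : α × β → ℤˣ, ‖∑ a, sg (q a) • ∑ b, sg (r (a, b)) • x (a, b)‖ ^ 2 := by
      intro q
      rw [← ex_mul_left (fun r : α × β → ℤˣ => ‖∑ i, sg (r i) • x i‖ ^ 2) (fun p => q p.1)]
      apply Finset.expect_congr rfl
      intro r _
      congr 2
      rw [Fintype.sum_prod_type]
      apply Finset.sum_congr rfl
      intro a _
      rw [Finset.smul_sum]
      apply Finset.sum_congr rfl
      intro b _
      simp [sg_mul, smul_smul]
    rw [Finset.expect_comm]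
    rw [← Finset.expect_const (Finset.univ_nonempty (α := α → ℤˣ))
      (𝔼 r : α × β → ℤˣ, ‖∑ i, sg (r i) • x i‖ ^ 2)]
    apply Finset.expect_congr rfl
    intro q _
    exact e1 q
  rw [h1]
  have h2 : 𝔼 r : α × β → ℤˣ, 𝔼 q : α → ℤˣ, ‖∑ a, sg (q a) • ∑ b, sg (r (a, b)) • x (a, b)‖ ^ 2
      ≤ 𝔼 r : α × β → ℤˣ, c * Fintype.card α * ∑ a, ‖∑ b, sg (r (a, b)) • x (a, b)‖ ^ 2 := by
    apply Finset.expect_le_expect
    intro r _
    exact h _
  refine h2.trans ?_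
  rw [← Finset.mul_expect, Finset.expect_sum_comm]
  have h3 : ∀ a : α, 𝔼 r : α × β → ℤˣ, ‖∑ b, sg (r (a, b)) • x (a, b)‖ ^ 2
      ≤ c' * Fintype.card β * ∑ b, ‖x (a, b)‖ ^ 2 := by
    intro a
    rw [ex_push (G := α × β → ℤˣ) (H := β → ℤˣ) (fun r b => r (a, b)) (fun q p => q p.2)
      (fun q r => rfl) (fun q => ‖∑ b, sg (q b) • x (a, b)‖ ^ 2)]
    exact h' _
  calc c * Fintype.card α * ∑ a, 𝔼 r : α × β → ℤˣ, ‖∑ b, sg (r (a, b)) • x (a, b)‖ ^ 2
      ≤ c * Fintype.card α * ∑ a, c' * Fintype.card β * ∑ b, ‖x (a, b)‖ ^ 2 := by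
        apply mul_le_mul_of_nonneg_left _ (by positivity)
        exact Finset.sum_le_sum (fun a _ => h3 a)
    _ = c * c' * Fintype.card (α × β) * ∑ i, ‖x i‖ ^ 2 := by
        rw [Fintype.sum_prod_type, ← Finset.mul_sum, Fintype.card_prod]
        push_cast
        ring

lemma QB.pow {c : ℝ} (hc : 0 ≤ c) {k : ℕ} (h : QB X c (Fin k)) (j : ℕ) :
    QB X (c ^ j) (Fin (k ^ j)) := by
  induction j with
  | zero =>
    intro x
    simp only [pow_zero]
    have hx : ∀ r : Fin (k ^ 0) → ℤˣ, ‖∑ i, sg (r i) • x i‖ ^ 2 = ∑ i, ‖x i‖ ^ 2 := by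
      intro r
      have : ∀ (n : ℕ) (hn : n = 1) (x : Fin n → X) (r : Fin n → ℤˣ),
          ‖∑ i, sg (r i) • x i‖ ^ 2 = ∑ i, ‖x i‖ ^ 2 := by
        intro n hn x r
        subst hn
        rw [Fin.sum_univ_one, Fin.sum_univ_one, norm_smul, Real.norm_eq_abs, abs_sg, one_mul]
      exact this _ (pow_zero k) x r
    simp only [hx]
    rw [Finset.expect_const Finset.univ_nonempty]
    simp
  | succ j ih =>
    have := (QB.prod (pow_nonneg hc j) ih h).congr finProdFinEquiv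
    rw [pow_succ, pow_succ]
    exact this

end QB

end R860.SL
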