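import Mathlib

/-! Strong law for pairwise independent uniformly bounded real random variables. -/

open Finset MeasureTheory ProbabilityTheory Filter Topology

namespace R860.SL

variable {Ω : Type*} [MeasurableSpace Ω] {P : Measure Ω} [IsProbabilityMeasure P]

lemma scal_second {W : ℕ → Ω → ℝ} (hW : ∀ b, Measurable (W b)) {B : ℝ} (hB : ∀ b ω, |W b ω| ≤ B)
    (hind : ∀ i j, i ≠ j → IndepFun (W i) (W j) P) (n : ℕ) :
    ∫ ω, (∑ b ∈ range n, (W b ω - ∫ ω', W b ω' ∂P)) ^ 2 ∂P ≤ n * B ^ 2 := by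
  have hLp : ∀ b, MemLp (W b) 2 P := fun b =>
    MemLp.of_bound (hW b).aestronglyMeasurable B (Eventually.of_forall (hB b))
  have hint : ∀ b, Integrable (W b) P := fun b =>
    Integrable.of_bound (hW b).aestronglyMeasurable B (Eventually.of_forall (hB b))
  have h1 : Var[∑ b ∈ range n, W b; P] = ∑ b ∈ range n, Var[W b; P] :=
    IndepFun.variance_sum (fun b _ => hLp b) (fun i _ j _ hij => hind i j hij)
  have h2 : ∀ b, Var[W b; P] ≤ B ^ 2 := by
    intro b
    rw [variance_eq_sub (hLp b)]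
    have h3 : ∫ ω, (W b ω) ^ 2 ∂P ≤ ∫ _ω, B ^ 2 ∂P := by
      apply integral_mono
      · exact (hLp b).integrable_sq
      · exact integrable_const _
      · intro ω
        simp only
        rw [← sq_abs (W b ω)]
        exact pow_le_pow_left₀ (abs_nonneg _) (hB b ω) 2
    simp only [integral_const, probReal_univ, one_smul] at h3
    have h4 : 0 ≤ (∫ ω, W b ω ∂P) ^ 2 := sq_nonneg _
    have h5 : ∫ ω, (W b ^ 2) ω ∂P = ∫ ω, (W b ω) ^ 2 ∂P := rfl
    rw [h5]
    linarith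
  have h6 : ∫ ω, (∑ b ∈ range n, (W b ω - ∫ ω', W b ω' ∂P)) ^ 2 ∂P
      = Var[∑ b ∈ range n, W b; P] := by
    have hm : Measurable (∑ b ∈ range n, W b) := by
      have e : (∑ b ∈ range n, W b) = fun ω => ∑ b ∈ range n, W b ω := by
        funext ω
        rw [Finset.sum_apply]
      rw [e]
      exact Finset.measurable_sum _ (fun b _ => hW b)
    rw [variance_eq_integral hm.aemeasurable]
    congr 1
    funext ω
    rw [Finset.sum_apply, Finset.sum_sub_distrib]
    congr 2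
    have : (∫ ω', (∑ b ∈ range n, W b) ω' ∂P) = ∫ ω', ∑ b ∈ range n, W b ω' ∂P := by
      congr 1
      funext ω'
      rw [Finset.sum_apply]
    rw [this, integral_finset_sum _ (fun b _ => hint b)]
  rw [h6, h1]
  calc ∑ b ∈ range n, Var[W b; P] ≤ ∑ _b ∈ range n, B ^ 2 := Finset.sum_le_sum (fun b _ => h2 b)
    _ = n * B ^ 2 := by rw [Finset.sum_const, card_range, nsmul_eq_mul]

/-- along the squares -/
lemma scal_squares {W : ℕ → Ω → ℝ} (hW : ∀ b, Measurable (W b)) {B : ℝ}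
    (hB : ∀ b ω, |W b ω| ≤ B) (hind : ∀ i j, i ≠ j → IndepFun (W i) (W j) P) :
    ∀ᵐ ω ∂P, Tendsto (fun j : ℕ => (∑ b ∈ range (j ^ 2), (W b ω - ∫ ω', W b ω' ∂P)) / (j : ℝ) ^ 2)
      atTop (𝓝 0) := by
  set S : ℕ → Ω → ℝ := fun n ω => ∑ b ∈ range n, (W b ω - ∫ ω', W b ω' ∂P) with hS
  have hSm : ∀ n, Measurable (S n) := by
    intro n
    apply Finset.measurable_sum
    intro b _
    exact (hW b).sub_const _
  set f : ℕ → Ω → ENNReal := fun j ω => ENNReal.ofReal ((S (j ^ 2) ω / (j : ℝ) ^ 2) ^ 2) with hf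
  have hfm : ∀ j, Measurable (f j) := by
    intro j
    exact (((hSm _).div_const _).pow_const 2).ennreal_ofReal
  have hB2 : ∀ b, |∫ ω', W b ω' ∂P| ≤ B := by
    intro b
    have h1 : ‖∫ ω', W b ω' ∂P‖ ≤ B * (P.real Set.univ) :=
      norm_integral_le_of_norm_le_const (Filter.Eventually.of_forall (hB b))
    rw [probReal_univ, mul_one] at h1
    exact h1
  have hSb : ∀ n ω, |S n ω| ≤ n * (2 * B) := by
    intro n ω
    refine (Finset.abs_sum_le_sum_abs _ _).trans ?_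
    calc ∑ b ∈ range n, |W b ω - ∫ ω', W b ω' ∂P| ≤ ∑ _b ∈ range n, (2 * B) := by
          apply Finset.sum_le_sum
          intro b _
          refine (abs_sub _ _).trans ?_
          have := hB b ω
          have := hB2 b
          linarith
      _ = n * (2 * B) := by rw [Finset.sum_const, card_range, nsmul_eq_mul]
  have hint : ∀ j, ∫⁻ ω, f j ω ∂P ≤ ENNReal.ofReal (B ^ 2 * (1 / (j : ℝ) ^ 2)) := by
    intro j
    simp only [hf]
    rw [← ofReal_integral_eq_lintegral_ofReal]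
    · apply ENNReal.ofReal_le_ofReal
      have h1 : ∫ ω, (S (j ^ 2) ω / (j : ℝ) ^ 2) ^ 2 ∂P
          = (1 / (j : ℝ) ^ 2) ^ 2 * ∫ ω, (S (j ^ 2) ω) ^ 2 ∂P := by
        rw [← integral_const_mul]
        congr 1
        funext ω
        ring
      rw [h1]
      have h2 := scal_second hW hB hind (j ^ 2)
      have h3 : (1 / (j : ℝ) ^ 2) ^ 2 * ∫ ω, (S (j ^ 2) ω) ^ 2 ∂P
          ≤ (1 / (j : ℝ) ^ 2) ^ 2 * (((j ^ 2 : ℕ) : ℝ) * B ^ 2) :=
        mul_le_mul_of_nonneg_left h2 (by positivity)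
      refine h3.trans (le_of_eq ?_)
      push_cast
      rcases eq_or_ne (j : ℝ) 0 with h | h
      · rw [h]; simp
      · field_simp
    · apply Integrable.of_bound (((hSm _).div_const _).pow_const 2).aestronglyMeasurable
        ((((j ^ 2 : ℕ) : ℝ) * (2 * B) / (j : ℝ) ^ 2) ^ 2)
      apply Eventually.of_forall
      intro ω
      rw [Real.norm_eq_abs, abs_of_nonneg (sq_nonneg _), ← sq_abs (S (j ^ 2) ω / (j : ℝ) ^ 2), abs_div,
        abs_of_nonneg (show (0 : ℝ) ≤ (j : ℝ) ^ 2 by positivity)]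
      apply pow_le_pow_left₀ (by positivity)
      apply div_le_div_of_nonneg_right (hSb _ ω) (by positivity)
    · apply Eventually.of_forall
      intro ω
      exact sq_nonneg _
  have hsum : ∫⁻ ω, ∑' j, f j ω ∂P ≠ ⊤ := by
    rw [lintegral_tsum (fun j => (hfm j).aemeasurable)]
    have h1 : ∑' j : ℕ, ∫⁻ ω, f j ω ∂P ≤ ∑' j : ℕ, ENNReal.ofReal (B ^ 2 * (1 / (j : ℝ) ^ 2)) :=
      ENNReal.tsum_le_tsum hint
    refine ne_top_of_le_ne_top ?_ h1
    have hs : Summable (fun j : ℕ => B ^ 2 * (1 / (j : ℝ) ^ 2)) :=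
      (Real.summable_one_div_nat_pow.mpr (by norm_num)).mul_left _
    rw [← ENNReal.ofReal_tsum_of_nonneg (fun j => by positivity) hs]
    exact ENNReal.ofReal_ne_top
  have hae : ∀ᵐ ω ∂P, ∑' j, f j ω < ⊤ :=
    ae_lt_top (Measurable.tsum hfm) hsum
  filter_upwards [hae] with ω hω
  have h1 : Tendsto (fun j => f j ω) atTop (𝓝 0) :=
    ENNReal.tendsto_atTop_zero_of_tsum_ne_top hω.ne
  have h2 : Tendsto (fun j : ℕ => (S (j ^ 2) ω / (j : ℝ) ^ 2) ^ 2) atTop (𝓝 0) := by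
    have h3 := (ENNReal.tendsto_toReal (ENNReal.zero_ne_top)).comp h1
    simp only [ENNReal.toReal_zero] at h3
    refine h3.congr ?_
    intro j
    simp only [hf, Function.comp]
    rw [ENNReal.toReal_ofReal (sq_nonneg _)]
  have h4 := h2.sqrt
  simp only [Real.sqrt_zero, Real.sqrt_sq_eq_abs] at h4
  exact (tendsto_zero_iff_abs_tendsto_zero _).mpr h4

/-- the scalar strong law -/
theorem scal_slln {W : ℕ → Ω → ℝ} (hW : ∀ b, Measurable (W b)) {B : ℝ}
    (hB : ∀ b ω, |W b ω| ≤ B) (hind : ∀ i j, i ≠ j → IndepFun (W i) (W j) P) :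
    ∀ᵐ ω ∂P, Tendsto (fun n : ℕ => (∑ b ∈ range n, (W b ω - ∫ ω', W b ω' ∂P)) / (n : ℝ))
      atTop (𝓝 0) := by
  filter_upwards [scal_squares hW hB hind] with ω hω
  have hB0 : 0 ≤ B := (abs_nonneg _).trans (hB 0 ω)
  have hB2 : ∀ b, |∫ ω', W b ω' ∂P| ≤ B := by
    intro b
    have h1 : ‖∫ ω', W b ω' ∂P‖ ≤ B * (P.real Set.univ) :=
      norm_integral_le_of_norm_le_const (Filter.Eventually.of_forall (hB b))
    rw [probReal_univ, mul_one] at h1
    exact h1
  set D : ℕ → ℝ := fun b => W b ω - ∫ ω', W b ω' ∂P with hD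
  have hDb : ∀ b, |D b| ≤ 2 * B := by
    intro b
    refine (abs_sub _ _).trans ?_
    have := hB b ω
    have := hB2 b
    linarith
  have hsq : Tendsto (fun n : ℕ => Nat.sqrt n) atTop atTop := by
    apply tendsto_atTop_atTop.mpr
    intro b
    exact ⟨b ^ 2, fun n hn => Nat.le_sqrt'.mpr hn⟩
  have h1 := (tendsto_zero_iff_abs_tendsto_zero _).mp hω
  have h2 : Tendsto (fun n : ℕ => |(∑ b ∈ range (n.sqrt ^ 2), D b) / ((n.sqrt : ℕ) : ℝ) ^ 2|
      + 4 * B * (1 / ((n.sqrt : ℕ) : ℝ))) atTop (𝓝 0) := by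
    have h3 : Tendsto (fun n : ℕ => 4 * B * (1 / ((n.sqrt : ℕ) : ℝ))) atTop (𝓝 0) := by
      have := (tendsto_one_div_atTop_nhds_zero_nat (𝕜 := ℝ)).comp hsq
      have := this.const_mul (4 * B)
      simpa using this
    have h4 := (h1.comp hsq).add h3
    simpa using h4
  apply squeeze_zero_norm' _ h2
  filter_upwards [eventually_ge_atTop 1] with n hn
  have hj : 1 ≤ n.sqrt := Nat.le_sqrt'.mpr (by simpa using hn)
  have hj1 : n.sqrt ^ 2 ≤ n := Nat.sqrt_le' n
  have hj2 : n < (n.sqrt + 1) ^ 2 := Nat.lt_succ_sqrt' n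
  set j := n.sqrt with hjdef
  have hjpos : (0 : ℝ) < j := by exact_mod_cast hj
  have hnpos : (0 : ℝ) < n := by exact_mod_cast hn
  have hdec : ∑ b ∈ range n, D b = ∑ b ∈ range (j ^ 2), D b + ∑ b ∈ Ico (j ^ 2) n, D b := by
    rw [Finset.sum_range_add_sum_Ico _ hj1]
  have hrest : |∑ b ∈ Ico (j ^ 2) n, D b| ≤ 2 * j * (2 * B) := by
    refine (Finset.abs_sum_le_sum_abs _ _).trans ?_
    calc ∑ b ∈ Ico (j ^ 2) n, |D b| ≤ ∑ _b ∈ Ico (j ^ 2) n, (2 * B) :=
          Finset.sum_le_sum (fun b _ => hDb b)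
      _ = ((n - j ^ 2 : ℕ) : ℝ) * (2 * B) := by rw [Finset.sum_const, Nat.card_Ico, nsmul_eq_mul]
      _ ≤ 2 * j * (2 * B) := by
          apply mul_le_mul_of_nonneg_right _ (by positivity)
          have : n - j ^ 2 ≤ 2 * j := by
            have : (j + 1) ^ 2 = j ^ 2 + 2 * j + 1 := by ring
            omega
          exact_mod_cast this
  rw [Real.norm_eq_abs, abs_div, abs_of_pos hnpos, abs_div, abs_of_pos (show (0 : ℝ) < (j : ℝ) ^ 2 by positivity)]
  have hnj : ((j : ℝ)) ^ 2 ≤ n := by exact_mod_cast hj1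
  calc |∑ b ∈ range n, D b| / n ≤ (|∑ b ∈ range (j ^ 2), D b| + 2 * j * (2 * B)) / n := by
        apply div_le_div_of_nonneg_right _ hnpos.le
        rw [hdec]
        exact (abs_add_le _ _).trans (by linarith)
    _ ≤ (|∑ b ∈ range (j ^ 2), D b| + 2 * j * (2 * B)) / (j : ℝ) ^ 2 := by
        apply div_le_div_of_nonneg_left (by positivity) (by positivity) hnj
    _ = |∑ b ∈ range (j ^ 2), D b| / (j : ℝ) ^ 2 + 4 * B * (1 / (j : ℝ)) := by
        field_simp
        ring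

end R860.SL
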