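import Pool.Agent.R860.SL.Contr

/-! Symmetrisation for independent bounded random vectors in a separable space. -/

open Finset MeasureTheory ProbabilityTheory
open scoped BigOperators

namespace R860.SL

variable {Z : Type*} [NormedAddCommGroup Z] [NormedSpace ℝ Z] [CompleteSpace Z]
  [MeasurableSpace Z] [BorelSpace Z] [SecondCountableTopology Z]
  {Ω : Type*} [MeasurableSpace Ω] {P : Measure Ω} [IsProbabilityMeasure P]

omit [CompleteSpace Z] in
lemma integrable_of_bdd {U : Ω → Z} (hU : Measurable U) {C : ℝ} (hC : ∀ ω, ‖U ω‖ ≤ C) :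
    Integrable U P :=
  Integrable.of_bound hU.aestronglyMeasurable C (Filter.Eventually.of_forall hC)

lemma integrable_of_bdd_real {U : Ω → ℝ} (hU : Measurable U) {C : ℝ} (hC : ∀ ω, |U ω| ≤ C) :
    Integrable U P :=
  Integrable.of_bound hU.aestronglyMeasurable C (Filter.Eventually.of_forall hC)

omit [CompleteSpace Z] [NormedSpace ℝ Z] in
lemma indep_int {U V : Ω → Z} (hU : Measurable U) (hV : Measurable V) (hind : IndepFun U V P)
    (G : Z × Z → ℝ) (hG : Continuous G) {B : ℝ} (hB : ∀ ω ω', |G (U ω, V ω')| ≤ B) :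
    ∫ ω, G (U ω, V ω) ∂P = ∫ ω, ∫ ω', G (U ω, V ω') ∂P ∂P := by
  have h1 : Measure.map (fun ω => (U ω, V ω)) P = (P.map U).prod (P.map V) :=
    (indepFun_iff_map_prod_eq_prod_map_map hU.aemeasurable hV.aemeasurable).mp hind
  have h2 : (P.map U).prod (P.map V) = (P.prod P).map (Prod.map U V) :=
    Measure.map_prod_map _ _ hU hV
  have hGm : Measurable G := hG.measurable
  have e1 : ∫ ω, G (U ω, V ω) ∂P = ∫ z, G z ∂(Measure.map (fun ω => (U ω, V ω)) P) := by
    rw [integral_map (hU.prodMk hV).aemeasurable hGm.aestronglyMeasurable]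
  have e2 : ∫ z, G z ∂((P.prod P).map (Prod.map U V))
      = ∫ w, G (Prod.map U V w) ∂(P.prod P) := by
    rw [integral_map (hU.prodMap hV).aemeasurable hGm.aestronglyMeasurable]
  rw [e1, h1, h2, e2, integral_prod]
  · rfl
  · apply integrable_of_bdd_real (hGm.comp (hU.prodMap hV))
    intro w
    exact hB w.1 w.2

lemma sym1 {V Y : Ω → Z} (hV : Measurable V) (hY : Measurable Y) (hind : IndepFun V Y P)
    {C₁ C₂ : ℝ} (hC₁ : ∀ ω, ‖V ω‖ ≤ C₁) (hC₂ : ∀ ω, ‖Y ω‖ ≤ C₂) :
    2 * ∫ ω, ‖V ω + (Y ω - ∫ ω', Y ω' ∂P)‖ ∂P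
      ≤ ∫ ω, ‖V ω + (2 : ℝ) • Y ω‖ ∂P + ∫ ω, ‖V ω - (2 : ℝ) • Y ω‖ ∂P := by
  set m : Z := ∫ ω', Y ω' ∂P with hm
  have hC1 : 0 ≤ C₁ := by
    obtain ⟨ω⟩ := nonempty_of_isProbabilityMeasure P
    exact (norm_nonneg _).trans (hC₁ ω)
  have hC2 : 0 ≤ C₂ := by
    obtain ⟨ω⟩ := nonempty_of_isProbabilityMeasure P
    exact (norm_nonneg _).trans (hC₂ ω)
  have hYi : Integrable Y P := integrable_of_bdd hY hC₂
  -- three independent-product formulas
  have hb1 : ∀ ω ω', |‖V ω + (Y ω' - m)‖| ≤ C₁ + (C₂ + ‖m‖) := by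
    intro ω ω'
    rw [abs_norm]
    refine (norm_add_le _ _).trans ?_
    have := norm_sub_le (Y ω') m
    have := hC₁ ω
    have := hC₂ ω'
    linarith
  have hb2 : ∀ ω ω', |‖V ω + (2 : ℝ) • Y ω'‖| ≤ C₁ + 2 * C₂ := by
    intro ω ω'
    rw [abs_norm]
    refine (norm_add_le _ _).trans ?_
    rw [norm_smul, Real.norm_eq_abs, abs_two]
    have := hC₁ ω
    have := hC₂ ω'
    linarith
  have hb3 : ∀ ω ω', |‖V ω - (2 : ℝ) • Y ω'‖| ≤ C₁ + 2 * C₂ := by
    intro ω ω'
    rw [abs_norm]
    refine (norm_sub_le _ _).trans ?_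
    rw [norm_smul, Real.norm_eq_abs, abs_two]
    have := hC₁ ω
    have := hC₂ ω'
    linarith
  have f1 := indep_int hV hY hind (fun z => ‖z.1 + (z.2 - m)‖) (by fun_prop) hb1
  have f2 := indep_int hV hY hind (fun z => ‖z.1 + (2 : ℝ) • z.2‖) (by fun_prop) hb2
  have f3 := indep_int hV hY hind (fun z => ‖z.1 - (2 : ℝ) • z.2‖) (by fun_prop) hb3
  simp only at f1 f2 f3
  rw [f1, f2, f3]
  -- integrability of the pieces
  have i2 : ∀ v : Z, Integrable (fun ω => ‖v + (2 : ℝ) • Y ω‖) P := by
    intro v
    apply integrable_of_bdd_real (C := ‖v‖ + 2 * C₂)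
    · exact (measurable_const.add (hY.const_smul (2 : ℝ))).norm
    · intro ω
      rw [abs_norm]
      refine (norm_add_le _ _).trans ?_
      rw [norm_smul, Real.norm_eq_abs, abs_two]
      have := hC₂ ω
      linarith
  have i3 : ∀ v : Z, Integrable (fun ω => ‖v - (2 : ℝ) • Y ω‖) P := by
    intro v
    apply integrable_of_bdd_real (C := ‖v‖ + 2 * C₂)
    · exact (measurable_const.sub (hY.const_smul (2 : ℝ))).norm
    · intro ω
      rw [abs_norm]
      refine (norm_sub_le _ _).trans ?_
      rw [norm_smul, Real.norm_eq_abs, abs_two]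
      have := hC₂ ω
      linarith
  have i1 : ∀ v : Z, Integrable (fun ω => ‖v + (Y ω - m)‖) P := by
    intro v
    apply integrable_of_bdd_real (C := ‖v‖ + (C₂ + ‖m‖))
    · exact (measurable_const.add (hY.sub_const m)).norm
    · intro ω
      rw [abs_norm]
      refine (norm_add_le _ _).trans ?_
      have := norm_sub_le (Y ω) m
      have := hC₂ ω
      linarith
  -- pointwise in the first variable
  have key : ∀ v : Z, 2 * ∫ ω', ‖v + (Y ω' - m)‖ ∂P
      ≤ ∫ ω', ‖v + (2 : ℝ) • Y ω'‖ ∂P + ∫ ω', ‖v - (2 : ℝ) • Y ω'‖ ∂P := by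
    intro v
    have h1 : ∀ ω', 2 * ‖v + (Y ω' - m)‖ ≤ ‖v + (2 : ℝ) • Y ω'‖
        + ∫ ω'', ‖v - (2 : ℝ) • Y ω''‖ ∂P := by
      intro ω'
      have e1 : v + (Y ω' - m) = ∫ ω'', ((v + Y ω') - Y ω'') ∂P := by
        rw [integral_sub (integrable_const _) hYi]
        simp only [integral_const, probReal_univ, one_smul]
        rw [← hm]
        abel
      have h2 : ‖v + (Y ω' - m)‖ ≤ ∫ ω'', ‖(v + Y ω') - Y ω''‖ ∂P := by
        rw [e1]
        exact norm_integral_le_integral_norm _
      have h3 : ∫ ω'', 2 * ‖(v + Y ω') - Y ω''‖ ∂P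
          ≤ ∫ ω'', (‖v + (2 : ℝ) • Y ω'‖ + ‖v - (2 : ℝ) • Y ω''‖) ∂P := by
        apply integral_mono
        · apply Integrable.const_mul
          exact ((integrable_const _).sub hYi).norm
        · exact (integrable_const _).add (i3 v)
        · intro ω''
          simp only
          have e : (2 : ℝ) • ((v + Y ω') - Y ω'') = (v + (2 : ℝ) • Y ω') + (v - (2 : ℝ) • Y ω'') := by
            simp only [two_smul]
            abel
          calc 2 * ‖(v + Y ω') - Y ω''‖ = ‖(2 : ℝ) • ((v + Y ω') - Y ω'')‖ := by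
                rw [norm_smul, Real.norm_eq_abs, abs_two]
            _ ≤ _ := by
                rw [e]
                exact norm_add_le _ _
      rw [integral_const_mul, integral_add (integrable_const _) (i3 v)] at h3
      simp only [integral_const, probReal_univ, one_smul] at h3
      linarith
    have h4 : ∫ ω', 2 * ‖v + (Y ω' - m)‖ ∂P
        ≤ ∫ ω', (‖v + (2 : ℝ) • Y ω'‖ + ∫ ω'', ‖v - (2 : ℝ) • Y ω''‖ ∂P) ∂P := by
      apply integral_mono
      · exact (i1 v).const_mul 2
      · exact (i2 v).add (integrable_const _)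
      · intro ω'
        exact h1 ω'
    rw [integral_const_mul, integral_add (i2 v) (integrable_const _)] at h4
    simp only [integral_const, probReal_univ, one_smul] at h4
    exact h4
  -- integrability of the outer functions
  have outer : ∀ G : Z × Z → ℝ, Continuous G → (∀ B : ℝ, (∀ ω ω', |G (V ω, Y ω')| ≤ B) →
      Integrable (fun ω => ∫ ω', G (V ω, Y ω') ∂P) P) := by
    intro G hG B hB
    have hi : Integrable (fun w : Ω × Ω => G (V w.1, Y w.2)) (P.prod P) := by
      apply integrable_of_bdd_real (C := B)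
      · exact hG.measurable.comp (hV.prodMap hY)
      · intro w
        exact hB w.1 w.2
    exact hi.integral_prod_left
  have o1 := outer (fun z => ‖z.1 + (z.2 - m)‖) (by fun_prop) _ hb1
  have o2 := outer (fun z => ‖z.1 + (2 : ℝ) • z.2‖) (by fun_prop) _ hb2
  have o3 := outer (fun z => ‖z.1 - (2 : ℝ) • z.2‖) (by fun_prop) _ hb3
  simp only at o1 o2 o3
  rw [← integral_const_mul, ← integral_add o2 o3]
  apply integral_mono (o1.const_mul 2) (o2.add o3)
  intro ω
  exact key (V ω)

/-- symmetrisation -/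
theorem sym2 {ι : Type*} [Fintype ι] [DecidableEq ι] {Y : ι → Ω → Z} (hY : ∀ i, Measurable (Y i))
    (hind : iIndepFun Y P) {C : ℝ} (hC : ∀ i ω, ‖Y i ω‖ ≤ C) :
    ∫ ω, ‖∑ i, (Y i ω - ∫ ω', Y i ω' ∂P)‖ ∂P
      ≤ 𝔼 r : ι → ℤˣ, ∫ ω, ‖∑ i, sg (r i) • ((2 : ℝ) • Y i ω)‖ ∂P := by
  classical
  set m : ι → Z := fun i => ∫ ω', Y i ω' ∂P with hm
  have hC0 : 0 ≤ C ∨ IsEmpty ι := by
    rcases isEmpty_or_nonempty ι with h | ⟨⟨i⟩⟩
    · exact Or.inr h
    · obtain ⟨ω⟩ := nonempty_of_isProbabilityMeasure P
      exact Or.inl ((norm_nonneg _).trans (hC i ω))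
  have hmC : ∀ i, ‖m i‖ ≤ C := by
    intro i
    have h1 : ‖∫ ω', Y i ω' ∂P‖ ≤ C * (P.real Set.univ) :=
      norm_integral_le_of_norm_le_const (Filter.Eventually.of_forall (hC i))
    rw [probReal_univ, mul_one] at h1
    exact h1
  -- the intermediate terms
  let φ : Finset ι → (ι → ℤˣ) → ι → Z → Z := fun u r i y =>
    if i ∈ u then sg (r i) • ((2 : ℝ) • y) else y - m i
  have hφm : ∀ u r i, Measurable (φ u r i) := by
    intro u r i
    by_cases h : i ∈ u
    · simp only [φ, h, if_true]
      exact (measurable_id.const_smul (2 : ℝ)).const_smul (sg (r i))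
    · simp only [φ, h, if_false]
      exact measurable_id.sub_const _
  have hφb : ∀ u r i ω, ‖φ u r i (Y i ω)‖ ≤ 2 * C := by
    intro u r i ω
    by_cases h : i ∈ u
    · simp only [φ, h, if_true]
      rw [norm_smul, norm_smul, Real.norm_eq_abs, abs_sg, Real.norm_eq_abs, abs_two, one_mul]
      have := hC i ω
      linarith
    · simp only [φ, h, if_false]
      refine (norm_sub_le _ _).trans ?_
      have := hC i ω
      have := hmC i
      linarith
  have key : ∀ u : Finset ι, ∫ ω, ‖∑ i, (Y i ω - m i)‖ ∂P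
      ≤ 𝔼 r : ι → ℤˣ, ∫ ω, ‖∑ i, φ u r i (Y i ω)‖ ∂P := by
    intro u
    induction u using Finset.induction_on with
    | empty =>
      simp only [φ, Finset.notMem_empty, if_false]
      rw [Finset.expect_const Finset.univ_nonempty]
    | insert j u hj ih =>
      refine ih.trans ?_
      apply ex_le_of_pair j
      intro r
      -- the remaining part
      set W : (ι → ℤˣ) → Ω → Z := fun r ω => ∑ i ∈ Finset.univ.erase j, φ u r i (Y i ω) with hW
      have hWflp : ∀ ω, W (flp j r) ω = W r ω := by
        intro ω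
        apply Finset.sum_congr rfl
        intro i hi
        simp only [φ]
        rw [flp_ne (Finset.ne_of_mem_erase hi)]
      have hWm : Measurable (W r) := by
        apply Finset.measurable_sum
        intro i _
        exact (hφm u r i).comp (hY i)
      have hWb : ∀ ω, ‖W r ω‖ ≤ (Finset.univ.erase j).card * (2 * C) := by
        intro ω
        refine (norm_sum_le _ _).trans ?_
        rw [← nsmul_eq_mul]
        apply Finset.sum_le_card_nsmul
        intro i _
        exact hφb u r i ω
      have e1 : ∀ r' ω, ∑ i, φ u r' i (Y i ω) = W r' ω + (Y j ω - m j) := by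
        intro r' ω
        rw [← Finset.add_sum_erase _ _ (Finset.mem_univ j), add_comm]
        congr 1
        simp only [φ, hj, if_false]
      have e2 : ∀ r' ω, ∑ i, φ (insert j u) r' i (Y i ω)
          = W r' ω + sg (r' j) • ((2 : ℝ) • Y j ω) := by
        intro r' ω
        rw [← Finset.add_sum_erase _ _ (Finset.mem_univ j), add_comm]
        congr 1
        · apply Finset.sum_congr rfl
          intro i hi
          have hij := Finset.ne_of_mem_erase hi
          simp only [φ, Finset.mem_insert, hij, false_or]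
        · simp only [φ, Finset.mem_insert_self, if_true]
      -- independence
      have hindW : IndepFun (W r) (Y j) P := by
        let ψ : ι → Z → Z := fun i => if i = j then id else φ u r i
        have hψm : ∀ i, Measurable (ψ i) := by
          intro i
          by_cases h : i = j
          · simp only [ψ, h, if_true]
            exact measurable_id
          · simp only [ψ, h, if_false]
            exact hφm u r i
        have h1 := (hind.comp ψ hψm).indepFun_finsetSum_of_notMem
          (fun i => (hψm i).comp (hY i)) (Finset.notMem_erase j Finset.univ)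
        have h2 : (∑ i ∈ Finset.univ.erase j, (ψ i ∘ Y i)) = W r := by
          funext ω
          rw [Finset.sum_apply]
          apply Finset.sum_congr rfl
          intro i hi
          have hij := Finset.ne_of_mem_erase hi
          simp only [ψ, hij, if_false, Function.comp]
        have h3 : ψ j ∘ Y j = Y j := by
          simp only [ψ, if_true]
          rfl
        rw [h2, h3] at h1
        exact h1
      have hs := sym1 hWm (hY j) hindW hWb (hC j)
      simp only [e1, e2, hWflp, flp_same, sg_neg]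
      have hmj : (∫ ω', Y j ω' ∂P) = m j := rfl
      rw [hmj] at hs
      rcases sg_cases (r j) with h | h
      · rw [h]
        simp only [one_smul, neg_smul, ← sub_eq_add_neg]
        linarith
      · rw [h]
        simp only [one_smul, neg_smul, neg_neg, ← sub_eq_add_neg]
        linarith
  have := key Finset.univ
  simpa [φ] using this

end R860.SL
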