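import Pool.Agent.R860.SL.Sym
import Pool.Agent.R860.SL.Scal

/-! Strong law in a separable Banach space from a bound on block Rademacher averages. -/

open Finset MeasureTheory ProbabilityTheory Filter Topology
open scoped BigOperators

namespace R860.SL

variable {Ω : Type*} [MeasurableSpace Ω] {P : Measure Ω} [IsProbabilityMeasure P]

lemma integral_expect {G : Type*} [Fintype G] (F : G → Ω → ℝ) (hF : ∀ g, Integrable (F g) P) :
    ∫ ω, 𝔼 g, F g ω ∂P = 𝔼 g, ∫ ω, F g ω ∂P := by
  simp only [Fintype.expect_eq_sum_div_card]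
  rw [integral_div, integral_finset_sum _ (fun g _ => hF g)]

variable {Z : Type*} [NormedAddCommGroup Z] [NormedSpace ℝ Z] [CompleteSpace Z]
  [MeasurableSpace Z] [BorelSpace Z] [SecondCountableTopology Z]

lemma block_mean {L : ℕ} {Y : Fin L → Ω → Z} (hY : ∀ i, Measurable (Y i))
    (hind : iIndepFun Y P) {C : ℝ} (hC : ∀ i ω, ‖Y i ω‖ ≤ C) {η : ℝ}
    (hA : ∀ᵐ ω ∂P, 𝔼 r : Fin L → ℤˣ, ‖∑ i, sg (r i) • Y i ω‖ ≤ η) :
    ∫ ω, ‖∑ i, (Y i ω - ∫ ω', Y i ω' ∂P)‖ ∂P ≤ 2 * η := by
  refine (sym2 hY hind hC).trans ?_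
  have hi : ∀ r : Fin L → ℤˣ, Integrable (fun ω => ‖∑ i, sg (r i) • Y i ω‖) P := by
    intro r
    apply integrable_of_bdd_real (C := L * C)
    · apply Measurable.norm
      apply Finset.measurable_sum
      intro i _
      exact (hY i).const_smul (sg (r i))
    · intro ω
      rw [abs_norm]
      refine (norm_sum_le _ _).trans ?_
      calc ∑ i, ‖sg (r i) • Y i ω‖ ≤ ∑ _i : Fin L, C := by
            apply Finset.sum_le_sum
            intro i _
            rw [norm_smul, Real.norm_eq_abs, abs_sg, one_mul]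
            exact hC i ω
        _ = L * C := by rw [Finset.sum_const, card_univ, Fintype.card_fin, nsmul_eq_mul]
  have h1 : ∀ r : Fin L → ℤˣ, ∫ ω, ‖∑ i, sg (r i) • ((2 : ℝ) • Y i ω)‖ ∂P
      = 2 * ∫ ω, ‖∑ i, sg (r i) • Y i ω‖ ∂P := by
    intro r
    rw [← integral_const_mul]
    congr 1
    funext ω
    have : ∑ i, sg (r i) • ((2 : ℝ) • Y i ω) = (2 : ℝ) • ∑ i, sg (r i) • Y i ω := by
      rw [Finset.smul_sum]
      apply Finset.sum_congr rfl
      intro i _
      rw [smul_comm]
    rw [this, norm_smul, Real.norm_eq_abs, abs_two]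
  simp only [h1]
  rw [← Finset.mul_expect, ← integral_expect _ hi]
  have h2 : ∫ ω, 𝔼 r : Fin L → ℤˣ, ‖∑ i, sg (r i) • Y i ω‖ ∂P ≤ ∫ _ω, η ∂P := by
    apply integral_mono_ae
    · simp only [Fintype.expect_eq_sum_div_card]
      exact (integrable_finset_sum _ (fun g _ => hi g)).div_const _
    · exact integrable_const _
    · exact hA
  simp only [integral_const, probReal_univ, one_smul] at h2
  linarith

lemma sum_blocks {M : Type*} [AddCommMonoid M] (a : ℕ → M) (L q : ℕ) :
    ∑ i ∈ range (q * L), a i = ∑ b ∈ range q, ∑ i : Fin L, a (b * L + i) := by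
  induction q with
  | zero => simp
  | succ q ih =>
    rw [Finset.sum_range_succ, ← ih, Nat.succ_mul, Finset.sum_range_add]
    congr 1
    rw [Fin.sum_univ_eq_sum_range (fun i => a (q * L + i))]

theorem vec_slln {Y : ℕ → Ω → Z} (hY : ∀ i, Measurable (Y i))
    (hind : iIndepFun Y P) {C : ℝ} (hC : ∀ i ω, ‖Y i ω‖ ≤ C)
    (hA : ∀ η : ℝ, 0 < η → ∃ L : ℕ, 0 < L ∧ ∀ m : ℕ, ∀ᵐ ω ∂P,
      𝔼 r : Fin L → ℤˣ, ‖∑ i, sg (r i) • Y (m + i) ω‖ ≤ η * L) :
    ∀ᵐ ω ∂P, Tendsto (fun n : ℕ => ‖∑ i ∈ range n, (Y i ω - ∫ ω', Y i ω' ∂P)‖ / (n : ℝ))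
      atTop (𝓝 0) := by
  classical
  have hC0 : 0 ≤ C := by
    obtain ⟨ω⟩ := nonempty_of_isProbabilityMeasure P
    exact (norm_nonneg _).trans (hC 0 ω)
  set m : ℕ → Z := fun i => ∫ ω', Y i ω' ∂P with hm
  have hmC : ∀ i, ‖m i‖ ≤ C := by
    intro i
    have h1 : ‖∫ ω', Y i ω' ∂P‖ ≤ C * (P.real Set.univ) :=
      norm_integral_le_of_norm_le_const (Filter.Eventually.of_forall (hC i))
    rw [probReal_univ, mul_one] at h1
    exact h1
  have hDb : ∀ i ω, ‖Y i ω - m i‖ ≤ 2 * C := by
    intro i ω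
    refine (norm_sub_le _ _).trans ?_
    have := hC i ω
    have := hmC i
    linarith
  have main : ∀ ε : ℝ, 0 < ε → ∀ᵐ ω ∂P, ∀ᶠ n : ℕ in atTop,
      ‖∑ i ∈ range n, (Y i ω - m i)‖ / (n : ℝ) ≤ ε := by
    intro ε hε
    obtain ⟨L, hL, hAL⟩ := hA (ε / 4) (by positivity)
    have hLpos : (0 : ℝ) < L := by exact_mod_cast hL
    set W : ℕ → Ω → ℝ := fun b ω => ‖∑ i : Fin L, (Y (b * L + i) ω - m (b * L + i))‖ with hW
    have hWm : ∀ b, Measurable (W b) := by
      intro b
      apply Measurable.norm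
      apply Finset.measurable_sum
      intro i _
      exact (hY _).sub_const _
    have hWb : ∀ b ω, |W b ω| ≤ L * (2 * C) := by
      intro b ω
      simp only [hW]
      rw [abs_norm]
      refine (norm_sum_le _ _).trans ?_
      calc ∑ i : Fin L, ‖Y (b * L + i) ω - m (b * L + i)‖ ≤ ∑ _i : Fin L, 2 * C :=
            Finset.sum_le_sum (fun i _ => hDb _ ω)
        _ = L * (2 * C) := by rw [Finset.sum_const, card_univ, Fintype.card_fin, nsmul_eq_mul]
    have hWmean : ∀ b, ∫ ω, W b ω ∂P ≤ ε / 2 * L := by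
      intro b
      have h1 := block_mean (Y := fun (i : Fin L) ω => Y (b * L + i) ω) (fun i => hY _)
        (hind.precomp (g := fun i : Fin L => b * L + (i : ℕ)) (by
          intro i j hij
          simp only at hij
          apply Fin.ext
          omega)) (fun i ω => hC _ ω) (hAL (b * L))
      have h2 : 2 * (ε / 4 * (L : ℝ)) = ε / 2 * L := by ring
      rw [h2] at h1
      exact h1
    have hWind : ∀ b b', b ≠ b' → IndepFun (W b) (W b') P := by
      intro b b' hbb
      have hdisj : Disjoint (Ico (b * L) (b * L + L)) (Ico (b' * L) (b' * L + L)) := by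
        rw [Finset.disjoint_left]
        intro i hi hi'
        rw [Finset.mem_Ico] at hi hi'
        rcases Nat.lt_or_gt_of_ne hbb with h | h
        · have : (b + 1) * L ≤ b' * L := Nat.mul_le_mul_right L h
          rw [Nat.add_mul, one_mul] at this
          omega
        · have : (b' + 1) * L ≤ b * L := Nat.mul_le_mul_right L h
          rw [Nat.add_mul, one_mul] at this
          omega
      have h1 := hind.indepFun_finset _ _ hdisj hY
      let g : ∀ b : ℕ, (↥(Ico (b * L) (b * L + L)) → Z) → ℝ := fun b z => ‖∑ i, (z i - m i)‖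
      have hg : ∀ b, Measurable (g b) := by
        intro b
        apply Measurable.norm
        apply Finset.measurable_sum
        intro i _
        exact (measurable_pi_apply i).sub_const _
      have h2 := h1.comp (hg b) (hg b')
      have e : ∀ b, (g b ∘ fun a (i : ↥(Ico (b * L) (b * L + L))) => Y i a) = W b := by
        intro b
        funext ω
        simp only [g, Function.comp, hW]
        congr 1
        rw [Finset.sum_coe_sort (Ico (b * L) (b * L + L)) (fun i => Y i ω - m i),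
          Finset.sum_Ico_eq_sum_range, Nat.add_sub_cancel_left,
          Fin.sum_univ_eq_sum_range (fun i => Y (b * L + i) ω - m (b * L + i))]
      rw [e, e] at h2
      exact h2
    filter_upwards [scal_slln hWm hWb hWind] with ω hω
    have hdiv : Tendsto (fun n : ℕ => n / L) atTop atTop := by
      apply tendsto_atTop_atTop.mpr
      intro b
      refine ⟨b * L, fun n hn => ?_⟩
      rw [Nat.le_div_iff_mul_le hL]
      exact hn
    have h1 := ((tendsto_zero_iff_abs_tendsto_zero _).mp hω).comp hdiv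
    have h2 : ∀ᶠ n : ℕ in atTop, |(∑ b ∈ range (n / L), (W b ω - ∫ ω', W b ω' ∂P)) / ((n / L : ℕ) : ℝ)|
        < ε / 4 := by
      have := h1.eventually (gt_mem_nhds (show (0 : ℝ) < ε / 4 by positivity))
      exact this
    have h3 : ∀ᶠ n : ℕ in atTop, L * (2 * C) / (n : ℝ) < ε / 4 := by
      have h4 : Tendsto (fun n : ℕ => L * (2 * C) / (n : ℝ)) atTop (𝓝 0) :=
        tendsto_const_div_atTop_nhds_zero_nat _
      exact h4.eventually (gt_mem_nhds (show (0 : ℝ) < ε / 4 by positivity))
    filter_upwards [h2, h3, eventually_ge_atTop L] with n hn2 hn3 hnL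
    set q := n / L with hq
    have hq1 : 1 ≤ q := by
      rw [hq, Nat.le_div_iff_mul_le hL]
      simpa using hnL
    have hqpos : (0 : ℝ) < q := by exact_mod_cast hq1
    have hqn : q * L ≤ n := Nat.div_mul_le_self n L
    have hnpos : (0 : ℝ) < n := by
      have : 0 < n := by omega
      exact_mod_cast this
    have hdec : ∑ i ∈ range n, (Y i ω - m i)
        = ∑ b ∈ range q, ∑ i : Fin L, (Y (b * L + i) ω - m (b * L + i))
          + ∑ i ∈ Ico (q * L) n, (Y i ω - m i) := by
      rw [← sum_blocks (fun i => Y i ω - m i), Finset.sum_range_add_sum_Ico _ hqn]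
    have hrest : ‖∑ i ∈ Ico (q * L) n, (Y i ω - m i)‖ ≤ L * (2 * C) := by
      refine (norm_sum_le _ _).trans ?_
      calc ∑ i ∈ Ico (q * L) n, ‖Y i ω - m i‖ ≤ ∑ _i ∈ Ico (q * L) n, (2 * C) :=
            Finset.sum_le_sum (fun i _ => hDb i ω)
        _ = ((n - q * L : ℕ) : ℝ) * (2 * C) := by rw [Finset.sum_const, Nat.card_Ico, nsmul_eq_mul]
        _ ≤ L * (2 * C) := by
            apply mul_le_mul_of_nonneg_right _ (by positivity)
            have h5 : n - q * L ≤ L := by
              have h6 : n % L + L * (n / L) = n := Nat.mod_add_div n L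
              have h7 : n % L < L := Nat.mod_lt n hL
              have h8 : L * (n / L) = q * L := by rw [hq, mul_comm]
              omega
            exact_mod_cast h5
    have hsum : ‖∑ b ∈ range q, ∑ i : Fin L, (Y (b * L + i) ω - m (b * L + i))‖
        ≤ |∑ b ∈ range q, (W b ω - ∫ ω', W b ω' ∂P)| + q * (ε / 2 * L) := by
      refine (norm_sum_le _ _).trans ?_
      have h5 : ∑ b ∈ range q, ‖∑ i : Fin L, (Y (b * L + i) ω - m (b * L + i))‖
          = ∑ b ∈ range q, (W b ω - ∫ ω', W b ω' ∂P) + ∑ b ∈ range q, ∫ ω', W b ω' ∂P := by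
        rw [← Finset.sum_add_distrib]
        apply Finset.sum_congr rfl
        intro b _
        simp only [hW]
        ring
      rw [h5]
      have h6 : ∑ b ∈ range q, ∫ ω', W b ω' ∂P ≤ q * (ε / 2 * L) := by
        calc ∑ b ∈ range q, ∫ ω', W b ω' ∂P ≤ ∑ _b ∈ range q, (ε / 2 * L) :=
              Finset.sum_le_sum (fun b _ => hWmean b)
          _ = q * (ε / 2 * L) := by rw [Finset.sum_const, card_range, nsmul_eq_mul]
      have h7 := le_abs_self (∑ b ∈ range q, (W b ω - ∫ ω', W b ω' ∂P))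
      linarith
    have hA1 : |∑ b ∈ range q, (W b ω - ∫ ω', W b ω' ∂P)| ≤ ε / 4 * n := by
      rw [abs_div, abs_of_pos hqpos, div_lt_iff₀ hqpos] at hn2
      have hqn' : (q : ℝ) ≤ n := by
        have : q ≤ n := Nat.div_le_self n L
        exact_mod_cast this
      have : ε / 4 * q ≤ ε / 4 * n := mul_le_mul_of_nonneg_left hqn' (by positivity)
      linarith
    have hA2 : q * (ε / 2 * L) ≤ ε / 2 * n := by
      have h5 : ((q * L : ℕ) : ℝ) ≤ n := by exact_mod_cast hqn
      push_cast at h5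
      have : ε / 2 * (q * L) ≤ ε / 2 * n := mul_le_mul_of_nonneg_left h5 (by positivity)
      linarith
    have hA3 : L * (2 * C) ≤ ε / 4 * n := by
      rw [div_lt_iff₀ hnpos] at hn3
      exact hn3.le
    rw [div_le_iff₀ hnpos, hdec]
    refine (norm_add_le _ _).trans ?_
    linarith
  have hall : ∀ᵐ ω ∂P, ∀ k : ℕ, ∀ᶠ n : ℕ in atTop,
      ‖∑ i ∈ range n, (Y i ω - m i)‖ / (n : ℝ) ≤ 1 / ((k : ℝ) + 1) := by
    rw [ae_all_iff]
    intro k
    exact main _ (by positivity)
  filter_upwards [hall] with ω hω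
  rw [Metric.tendsto_atTop']
  intro ε hε
  obtain ⟨k, hk⟩ := exists_nat_one_div_lt hε
  obtain ⟨N, hN⟩ := eventually_atTop.mp (hω k)
  refine ⟨N, fun n hn => ?_⟩
  rw [Real.dist_eq, sub_zero, abs_of_nonneg (by positivity)]
  exact (hN n hn.le).trans_lt hk

end R860.SL
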